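import Pool.Agent.Helper27.DN.Split

/-!
# Comparison of `F (z + i s)` and `F (z - i s)`
-/

set_option autoImplicit false

namespace Pool.Agent.Helper27.DN

open Complex Filter Topology Metric
open Pool.Agent.Helper242.KK
open scoped ComplexConjugate

/-- even real entire functions of order less than two with zeros in the strip `|Im z| ≤ Δ` -/
structure Gcl (F : ℂ → ℂ) (Δ : ℝ) : Prop where
  diff : Differentiable ℂ F
  even : ∀ z, F (-z) = F z
  real : ∀ z, F (conj z) = conj (F z)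
  ne : F 0 ≠ 0
  growth : ∃ C ρ₀ : ℝ, ∀ ρ : ℝ, ρ₀ ≤ ρ → ∀ w ∈ closedBall (0 : ℂ) (2 * ρ),
    ‖F w‖ ≤ Real.exp (C * ρ ^ (3 / 2 : ℝ))
  zeros : ∀ z, F z = 0 → |z.im| ≤ Δ

/-- the comparison for a pair of conjugate zeros -/
theorem pair_le {u z : ℂ} {s : ℝ} (hy : 0 ≤ z.im) (hs : 0 ≤ s) (h : u.im ^ 2 ≤ z.im ^ 2 + s ^ 2) :
    ‖z - I * s - u‖ * ‖z - I * s - conj u‖ ≤ ‖z + I * s - u‖ * ‖z + I * s - conj u‖ := by
  refine (sq_le_sq₀ (by positivity) (by positivity)).1 ?_
  rw [mul_pow, mul_pow, Complex.sq_norm, Complex.sq_norm, Complex.sq_norm, Complex.sq_norm,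
    Complex.normSq_apply, Complex.normSq_apply, Complex.normSq_apply, Complex.normSq_apply]
  simp only [sub_re, sub_im, add_re, add_im, mul_re, mul_im, I_re, I_im, ofReal_re, ofReal_im,
    conj_re, conj_im, zero_mul, one_mul, mul_zero, mul_one, sub_zero, zero_add, zero_sub, add_zero,
    sub_neg_eq_add, neg_zero]
  have key : 0 ≤ 8 * z.im * s * ((z.re - u.re) ^ 2 + (z.im ^ 2 + s ^ 2 - u.im ^ 2)) := by
    have h1 : 0 ≤ (z.re - u.re) ^ 2 + (z.im ^ 2 + s ^ 2 - u.im ^ 2) := by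
      have := sq_nonneg (z.re - u.re)
      linarith
    positivity
  nlinarith [key]

/-- one factor of the polynomial with its conjugate -/
noncomputable def fac (u w : ℂ) : ℝ := ‖1 - w ^ 2 / u ^ 2‖ * ‖1 - (conj w) ^ 2 / u ^ 2‖

lemma fac_nonneg (u w : ℂ) : 0 ≤ fac u w := by unfold fac; positivity

lemma fac_eq {u : ℂ} (hu : u ≠ 0) (w : ℂ) :
    fac u w = ((‖w - u‖ * ‖w - conj u‖) * (‖w - -u‖ * ‖w - conj (-u)‖)) / ‖u‖ ^ 4 := by
  have hun : ‖u‖ ≠ 0 := norm_ne_zero_iff.2 hu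
  have h1 : ∀ w : ℂ, ‖1 - w ^ 2 / u ^ 2‖ = ‖w - u‖ * ‖w - -u‖ / ‖u‖ ^ 2 := by
    intro w
    have e : 1 - w ^ 2 / u ^ 2 = -((w - u) * (w - -u)) / u ^ 2 := by
      field_simp
      ring
    rw [e, norm_div, norm_neg, norm_mul, norm_pow]
  have h2 : ‖conj w - u‖ = ‖w - conj u‖ := by
    rw [← Complex.norm_conj (w - conj u), map_sub, Complex.conj_conj]
  have h3 : ‖conj w - -u‖ = ‖w - conj (-u)‖ := by
    rw [← Complex.norm_conj (w - conj (-u)), map_sub, Complex.conj_conj]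
  unfold fac
  rw [h1, h1, h2, h3]
  field_simp

lemma fac_mono {u z : ℂ} (hu : u ≠ 0) {s : ℝ} (hy : 0 ≤ z.im) (hs : 0 ≤ s)
    (h : u.im ^ 2 ≤ z.im ^ 2 + s ^ 2) : fac u (z - I * s) ≤ fac u (z + I * s) := by
  rw [fac_eq hu, fac_eq hu]
  have h1 := pair_le (u := u) hy hs h
  have h2 := pair_le (u := -u) hy hs (by simpa using h)
  gcongr

lemma PP_fac (l : List ℂ) (w : ℂ) : ‖PP l w‖ * ‖PP l (conj w)‖ = (l.map fun u => fac u w).prod := by
  induction l with
  | nil => simp [PP]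
  | cons u l ih =>
    simp only [PP, List.map_cons, List.prod_cons] at ih ⊢
    rw [← ih, norm_mul, norm_mul]
    unfold fac
    ring

lemma PP_mono (l : List ℂ) {z : ℂ} {s : ℝ} (hy : 0 ≤ z.im) (hs : 0 ≤ s)
    (h : ∀ u ∈ l, u ≠ 0 ∧ u.im ^ 2 ≤ z.im ^ 2 + s ^ 2) :
    (l.map fun u => fac u (z - I * s)).prod ≤ (l.map fun u => fac u (z + I * s)).prod := by
  induction l with
  | nil => simp
  | cons u l ih =>
    simp only [List.map_cons, List.prod_cons]
    have h1 := h u (by simp)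
    have h2 := fac_mono h1.1 hy hs h1.2
    have h3 := ih (fun v hv => h v (by simp [hv]))
    have h4 : 0 ≤ (l.map fun u => fac u (z - I * s)).prod := by
      refine List.prod_nonneg fun x hx => ?_
      obtain ⟨v, _, rfl⟩ := List.mem_map.1 hx
      exact fac_nonneg _ _
    exact mul_le_mul h2 h3 h4 (fac_nonneg _ _)

/-- the comparison theorem -/
theorem lemS {F : ℂ → ℂ} {Δ : ℝ} (h : Gcl F Δ) (hΔ : 0 ≤ Δ) {z : ℂ} {s : ℝ} (hy : 0 ≤ z.im)
    (hs : 0 ≤ s) (hzs : Δ ^ 2 ≤ z.im ^ 2 + s ^ 2) : ‖F (z - I * s)‖ ≤ ‖F (z + I * s)‖ := by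
  obtain ⟨C, ρ₀, hgr⟩ := h.growth
  have h0n : 0 < ‖F 0‖ := norm_pos_iff.2 h.ne
  set R : ℝ := ‖z‖ + s with hR
  have hR0 : 0 ≤ R := by positivity
  -- it is enough to prove the inequality up to a small factor
  have main : ∀ ε : ℝ, 0 < ε → ‖F (z - I * s)‖ ^ 2 ≤ ‖F (z + I * s)‖ ^ 2 * Real.exp ε := by
    intro ε hε
    -- choice of the radius
    obtain ⟨ρ, hρ1, hρ0, hρR, hsmall⟩ : ∃ ρ : ℝ, 1 ≤ ρ ∧ ρ₀ ≤ ρ ∧ 2 * R + 1 ≤ ρ ∧
        40 * (C * ρ ^ (3 / 2 : ℝ) - Real.log ‖F 0‖ + 1) * R ^ 2 / ρ ^ 2 ≤ ε := by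
      have hlim : Tendsto (fun ρ : ℝ => 40 * R ^ 2 * (C * ρ ^ (-(1 / 2) : ℝ) +
          (1 - Real.log ‖F 0‖) * (ρ ^ (-2 : ℝ)))) atTop (𝓝 (40 * R ^ 2 * (C * 0 +
          (1 - Real.log ‖F 0‖) * 0))) := by
        refine Tendsto.const_mul _ (Tendsto.add ?_ ?_)
        · exact (tendsto_rpow_neg_atTop (by norm_num)).const_mul _
        · exact (tendsto_rpow_neg_atTop (by norm_num)).const_mul _
      rw [mul_zero, mul_zero, add_zero, mul_zero] at hlim
      have hev := (hlim.eventually (gt_mem_nhds hε)).and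
        ((eventually_ge_atTop (1 : ℝ)).and ((eventually_ge_atTop ρ₀).and
          (eventually_ge_atTop (2 * R + 1))))
      obtain ⟨ρ, h1, h2, h3, h4⟩ := hev.exists
      refine ⟨ρ, h2, h3, h4, ?_⟩
      have hρp : 0 < ρ := by linarith
      have e1 : ρ ^ (-(1 / 2) : ℝ) = ρ ^ (3 / 2 : ℝ) / ρ ^ 2 := by
        rw [← Real.rpow_natCast ρ 2, ← Real.rpow_sub hρp]
        norm_num
      have e2 : ρ ^ (-2 : ℝ) = 1 / ρ ^ 2 := by
        rw [Real.rpow_neg hρp.le, ← Real.rpow_natCast ρ 2]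
        simp
      rw [e1, e2] at h1
      refine le_trans (le_of_eq ?_) h1.le
      ring
    have hρp : 0 < ρ := by linarith
    set M : ℝ := C * ρ ^ (3 / 2 : ℝ) with hM
    obtain ⟨n, hn⟩ := exists_nat_ge
      (∑ᶠ u, (MeromorphicOn.divisor F (closedBall 0 ρ) u : ℝ) * 1)
    obtain ⟨l, G, hG, hG0, hGe, hGb, hGz, hl, hfac⟩ :=
      split_list hρp n F h.diff h.ne h.even (hgr ρ hρ0) hn
    have hlu : ∀ u ∈ l, u ≠ 0 ∧ u.im ^ 2 ≤ z.im ^ 2 + s ^ 2 := by
      intro u hu
      refine ⟨?_, ?_⟩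
      · rintro rfl
        exact h.ne (hl 0 hu)
      · have h1 := h.zeros u (hl u hu)
        have h2 : u.im ^ 2 ≤ Δ ^ 2 := by
          rw [← sq_abs]
          exact pow_le_pow_left₀ (abs_nonneg _) h1 2
        linarith
    -- the modulus of `F`
    have hmod : ∀ w, ‖F w‖ ^ 2 = (l.map fun u => fac u w).prod * (‖G w‖ * ‖G (conj w)‖) := by
      intro w
      have h1 : ‖F (conj w)‖ = ‖F w‖ := by rw [h.real, Complex.norm_conj]
      rw [← PP_fac, sq]
      nth_rewrite 2 [← h1]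
      rw [hfac w, hfac (conj w), norm_mul, norm_mul]
      ring
    set δ : ℝ := 10 * (M - Real.log ‖F 0‖ + 1) * R ^ 2 / ρ ^ 2 with hδ
    have hclose : ∀ w : ℂ, ‖w‖ ≤ R → ‖F 0‖ * Real.exp (-δ) ≤ ‖G w‖ ∧
        ‖G w‖ ≤ ‖F 0‖ * Real.exp δ := by
      intro w hw
      have hwρ : ‖w‖ < ρ / 2 := by linarith
      have h1 := free_even hG hGe hρp (fun u hu => hGz u (ball_subset_closedBall hu))
        (fun v hv => hGb v (by
          rw [mem_closedBall_zero_iff]
          rw [mem_ball_zero_iff] at hv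
          linarith)) hwρ
      rw [hG0] at h1
      have hA : 0 ≤ M - Real.log ‖F 0‖ + 1 := by
        have h2 := hgr ρ hρ0 0 (by simp [hρp.le])
        have h3 : Real.log ‖F 0‖ ≤ M := by
          rw [← Real.log_exp M]
          exact Real.log_le_log h0n h2
        linarith
      have h2 : 10 * (M - Real.log ‖F 0‖ + 1) * ‖w‖ ^ 2 / ρ ^ 2 ≤ δ := by
        rw [hδ]
        gcongr
      have h3 := abs_le.1 (h1.trans h2)
      have hGw : 0 < ‖G w‖ := by
        refine norm_pos_iff.2 (hGz w ?_)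
        rw [mem_closedBall_zero_iff]
        linarith [norm_nonneg w]
      have e : ‖G w‖ = ‖F 0‖ * Real.exp (Real.log ‖G w‖ - Real.log ‖F 0‖) := by
        rw [Real.exp_sub, Real.exp_log hGw, Real.exp_log h0n]
        field_simp
      rw [e]
      constructor
      · exact mul_le_mul_of_nonneg_left (Real.exp_le_exp.2 h3.1) h0n.le
      · exact mul_le_mul_of_nonneg_left (Real.exp_le_exp.2 h3.2) h0n.le
    have hn1 : ‖z - I * s‖ ≤ R := by
      refine (norm_sub_le _ _).trans ?_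
      rw [norm_mul, norm_I, one_mul, Complex.norm_real, Real.norm_eq_abs, abs_of_nonneg hs]
    have hn2 : ‖z + I * s‖ ≤ R := by
      refine (norm_add_le _ _).trans ?_
      rw [norm_mul, norm_I, one_mul, Complex.norm_real, Real.norm_eq_abs, abs_of_nonneg hs]
    obtain ⟨_, a1⟩ := hclose _ hn1
    obtain ⟨_, a2⟩ := hclose (conj (z - I * s)) (by rwa [Complex.norm_conj])
    obtain ⟨b1, _⟩ := hclose _ hn2
    obtain ⟨b2, _⟩ := hclose (conj (z + I * s)) (by rwa [Complex.norm_conj])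
    have hP := PP_mono l hy hs hlu
    have hPn : ∀ w, 0 ≤ (l.map fun u => fac u w).prod := by
      intro w
      refine List.prod_nonneg fun x hx => ?_
      obtain ⟨v, _, rfl⟩ := List.mem_map.1 hx
      exact fac_nonneg _ _
    have hup : ‖F (z - I * s)‖ ^ 2 ≤
        (l.map fun u => fac u (z + I * s)).prod * ((‖F 0‖ * Real.exp δ) * (‖F 0‖ * Real.exp δ)) := by
      rw [hmod]
      gcongr
      exact hPn _
    have hlow : (l.map fun u => fac u (z + I * s)).prod *
        ((‖F 0‖ * Real.exp (-δ)) * (‖F 0‖ * Real.exp (-δ))) ≤ ‖F (z + I * s)‖ ^ 2 := by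
      rw [hmod]
      gcongr
      exact hPn _
    have hδε : 4 * δ ≤ ε := by
      rw [hδ]
      refine le_trans (le_of_eq ?_) hsmall
      ring
    calc ‖F (z - I * s)‖ ^ 2 ≤ _ := hup
      _ = ((l.map fun u => fac u (z + I * s)).prod *
        ((‖F 0‖ * Real.exp (-δ)) * (‖F 0‖ * Real.exp (-δ)))) * Real.exp (4 * δ) := by
          have e : Real.exp δ * Real.exp δ = Real.exp (-δ) * Real.exp (-δ) * Real.exp (4 * δ) := by
            rw [← Real.exp_add, ← Real.exp_add, ← Real.exp_add]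
            congr 1
            ring
          linear_combination (l.map fun u => fac u (z + I * s)).prod * ‖F 0‖ ^ 2 * e
      _ ≤ ‖F (z + I * s)‖ ^ 2 * Real.exp ε := by
          refine mul_le_mul hlow (Real.exp_le_exp.2 hδε) (Real.exp_pos _).le (by positivity)
  -- conclusion
  have hfin : ‖F (z - I * s)‖ ^ 2 ≤ ‖F (z + I * s)‖ ^ 2 := by
    have hlim : Tendsto (fun ε : ℝ => ‖F (z + I * s)‖ ^ 2 * Real.exp ε) (𝓝[>] 0)
        (𝓝 (‖F (z + I * s)‖ ^ 2 * Real.exp 0)) :=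
      ((Real.continuous_exp.tendsto 0).mono_left nhdsWithin_le_nhds).const_mul _
    rw [Real.exp_zero, mul_one] at hlim
    exact ge_of_tendsto hlim (eventually_nhdsWithin_of_forall fun ε hε => main ε hε)
  exact (sq_le_sq₀ (norm_nonneg _) (norm_nonneg _)).1 hfin

/-- the modulus increases in the vertical direction above the zeros -/
theorem lemM {F : ℂ → ℂ} {Δ : ℝ} (h : Gcl F Δ) (hΔ : 0 ≤ Δ) {z : ℂ} (hz : Δ ≤ z.im) :
    (deriv F z / F z).im ≤ 0 := by
  by_cases hF : F z = 0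
  · simp [hF]
  have hd : HasDerivAt F (deriv F z) z := (h.diff z).hasDerivAt
  -- derivative of the squared modulus along the two vertical rays
  have h1 : HasDerivAt (fun s : ℝ => F (z + I * s)) (deriv F z * I) 0 := by
    have e1 : HasDerivAt (fun s : ℝ => z + I * (s : ℂ)) I 0 := by
      have := ((Complex.ofRealCLM.hasDerivAt (x := (0 : ℝ))).const_mul I).const_add z
      simpa using this
    have e2 : HasDerivAt F (deriv F z) (z + I * ((0 : ℝ) : ℂ)) := by simpa using hd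
    exact e2.comp 0 e1
  have h2 : HasDerivAt (fun s : ℝ => F (z - I * s)) (deriv F z * -I) 0 := by
    have e1 : HasDerivAt (fun s : ℝ => z - I * (s : ℂ)) (-I) 0 := by
      have := ((Complex.ofRealCLM.hasDerivAt (x := (0 : ℝ))).const_mul I).const_sub z
      simpa using this
    have e2 : HasDerivAt F (deriv F z) (z - I * ((0 : ℝ) : ℂ)) := by simpa using hd
    exact e2.comp 0 e1
  have h3 := h1.norm_sq.sub h2.norm_sq
  simp only [ofReal_zero, mul_zero, add_zero, sub_zero] at h3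
  have h4 : 0 ≤ 2 * inner ℝ (F z) (deriv F z * I) - 2 * inner ℝ (F z) (deriv F z * -I) := by
    refine ge_of_tendsto h3.tendsto_slope_zero_right ?_
    refine eventually_nhdsWithin_of_forall fun t ht => ?_
    have ht' : (0 : ℝ) < t := ht
    simp only [Pi.sub_apply, ofReal_zero, mul_zero, add_zero, sub_zero, zero_add, sub_self,
      smul_eq_mul]
    have h5 := lemS h hΔ (z := z) (s := t) (hΔ.trans hz) ht'.le (by nlinarith)
    have h6 : ‖F (z - I * t)‖ ^ 2 ≤ ‖F (z + I * t)‖ ^ 2 := pow_le_pow_left₀ (norm_nonneg _) h5 2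
    have : 0 < t⁻¹ := by positivity
    nlinarith
  rw [Complex.inner, Complex.inner] at h4
  have h5 : (deriv F z / F z).im = (deriv F z * conj (F z)).im / Complex.normSq (F z) := by
    rw [div_eq_mul_inv, Complex.inv_def, ← mul_assoc,
      Complex.im_mul_ofReal, div_eq_mul_inv]
  rw [h5]
  refine div_nonpos_of_nonpos_of_nonneg ?_ (Complex.normSq_nonneg _)
  simp only [mul_re, mul_im, conj_re, conj_im, I_re, I_im, neg_re, neg_im] at h4 ⊢
  nlinarith

/-- the sum of the two translates has no zeros above the reduced strip -/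
theorem step_ne {F : ℂ → ℂ} {Δ : ℝ} (h : Gcl F Δ) (hΔ : 0 ≤ Δ)
    (hmono : ∀ a b : ℝ, 0 ≤ a → a < b → ‖F (I * a)‖ < ‖F (I * b)‖) {s : ℝ} (hs : 0 < s)
    {z : ℂ} (hy : 0 < z.im) (hz : Δ ^ 2 < z.im ^ 2 + s ^ 2) :
    F (z + I * s) + F (z - I * s) ≠ 0 := by
  intro h0
  set D : ℝ := Real.sqrt (max (Δ ^ 2 - s ^ 2) 0) with hD
  have hD0 : 0 ≤ D := Real.sqrt_nonneg _
  have hD2 : D ^ 2 = max (Δ ^ 2 - s ^ 2) 0 := Real.sq_sqrt (le_max_right _ _)
  set U : Set ℂ := {w | D < w.im} with hU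
  have hUo : IsOpen U := isOpen_lt continuous_const Complex.continuous_im
  have hUc : IsPreconnected U := (convex_halfSpace_im_gt D).isPreconnected
  have hUy : ∀ w ∈ U, 0 < w.im ∧ Δ ^ 2 < w.im ^ 2 + s ^ 2 := by
    intro w hw
    have hw' : D < w.im := hw
    refine ⟨lt_of_le_of_lt hD0 hw', ?_⟩
    have h1 : D ^ 2 < w.im ^ 2 := pow_lt_pow_left₀ hw' hD0 (by norm_num)
    have h2 : Δ ^ 2 - s ^ 2 ≤ D ^ 2 := by rw [hD2]; exact le_max_left _ _
    linarith
  have hzU : z ∈ U := by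
    show D < z.im
    rw [hD, Real.sqrt_lt' hy]
    refine max_lt (by linarith) (by positivity)
  have hne : ∀ w ∈ U, F (w + I * s) ≠ 0 := by
    intro w hw hw0
    obtain ⟨h1, h2⟩ := hUy w hw
    have h3 := h.zeros _ hw0
    simp only [add_im, mul_im, I_re, I_im, ofReal_re, ofReal_im, zero_mul, one_mul, zero_add] at h3
    rw [abs_of_pos (by linarith)] at h3
    have h4 : (w.im + s) ^ 2 ≤ Δ ^ 2 := pow_le_pow_left₀ (by linarith) h3 2
    nlinarith
  set q : ℂ → ℂ := fun w => F (w - I * s) / F (w + I * s) with hq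
  have hqd : DifferentiableOn ℂ q U := by
    refine DifferentiableOn.div ?_ ?_ hne
    · exact (h.diff.comp (differentiable_id.sub_const _)).differentiableOn
    · exact (h.diff.comp (differentiable_id.add_const _)).differentiableOn
  have hq1 : ∀ w ∈ U, ‖q w‖ ≤ 1 := by
    intro w hw
    obtain ⟨h1, h2⟩ := hUy w hw
    rw [hq]
    simp only
    rw [norm_div, div_le_one (norm_pos_iff.2 (hne w hw))]
    exact lemS h hΔ h1.le hs.le h2.le
  have hqz : ‖q z‖ = 1 := by
    have h1 : F (z - I * s) = -F (z + I * s) := by linear_combination h0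
    rw [hq]
    simp only
    rw [h1, neg_div, div_self (hne z hzU), norm_neg, norm_one]
  have hmax : IsMaxOn (norm ∘ q) U z := by
    intro w hw
    simp only [Set.mem_ofPred_eq, Function.comp_apply]
    rw [hqz]
    exact hq1 w hw
  have heq := Complex.norm_eqOn_of_isPreconnected_of_isMaxOn hUc hUo hqd hzU hmax
  have hτU : I * ((D + s + 1 : ℝ) : ℂ) ∈ U := by
    show D < _
    simp only [mul_im, I_re, I_im, ofReal_re, ofReal_im, zero_mul, one_mul, zero_add]
    linarith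
  have h1 := heq hτU
  simp only [Function.comp_apply, Function.const_apply] at h1
  rw [hqz, hq] at h1
  simp only at h1
  rw [norm_div, div_eq_one_iff_eq (norm_pos_iff.2 (hne _ hτU)).ne'] at h1
  have e1 : I * ((D + s + 1 : ℝ) : ℂ) - I * s = I * ((D + 1 : ℝ) : ℂ) := by push_cast; ring
  have e2 : I * ((D + s + 1 : ℝ) : ℂ) + I * s = I * ((D + 2 * s + 1 : ℝ) : ℂ) := by
    push_cast; ring
  rw [e1, e2] at h1
  exact (hmono (D + 1) (D + 2 * s + 1) (by linarith) (by linarith)).ne h1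

end Pool.Agent.Helper27.DN
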