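import Pool.Agent.Helper27.DN.Ker

/-!
# The heat flow: de Bruijn's theorem for the kernels
-/

set_option autoImplicit false

namespace Pool.Agent.Helper27.DN

open Complex Filter Topology Metric MeasureTheory
open scoped ComplexConjugate

/-- Hurwitz -/
theorem hurwitz {ι : Type} {l : Filter ι} [l.NeBot] {f : ℂ → ℂ} {fn : ι → ℂ → ℂ}
    (hf : Differentiable ℂ f) (hfn : ∀ᶠ n in l, Differentiable ℂ (fn n)) {z₀ z₁ : ℂ} {r : ℝ}
    (hr : 0 < r) (hlim : TendstoUniformlyOn fn f l (closedBall z₀ r)) (h0 : f z₀ = 0)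
    (h1 : f z₁ ≠ 0) : ∀ᶠ n in l, ∃ w ∈ ball z₀ r, fn n w = 0 := by
  have han : AnalyticOnNhd ℂ f Set.univ := fun z _ => hf.analyticAt z
  have hpunc : ∀ᶠ w in 𝓝[≠] z₀, f w ≠ 0 := by
    rcases (hf.analyticAt z₀).eventually_eq_zero_or_eventually_ne_zero with h | h
    · exfalso
      have := han.eqOn_zero_of_preconnected_of_eventuallyEq_zero isPreconnected_univ
        (Set.mem_univ z₀) h
      exact h1 (this (Set.mem_univ z₁))
    · exact h
  obtain ⟨ε, hε, hball⟩ := Metric.mem_nhdsWithin_iff.1 hpunc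
  set r' : ℝ := min (ε / 2) (r / 2) with hr'
  have hr'0 : 0 < r' := lt_min (by linarith) (by linarith)
  have hr'ε : r' < ε := (min_le_left _ _).trans_lt (by linarith)
  have hr'r : r' < r := (min_le_right _ _).trans_lt (by linarith)
  have hsph : ∀ w ∈ sphere z₀ r', f w ≠ 0 := by
    intro w hw
    refine hball ⟨?_, ?_⟩
    · rw [mem_ball, mem_sphere.1 hw]; exact hr'ε
    · rintro rfl
      rw [mem_sphere, dist_self] at hw
      exact hr'0.ne hw
  obtain ⟨w₀, hw₀, hmin⟩ := (isCompact_sphere z₀ r').exists_isMinOn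
    (NormedSpace.sphere_nonempty.2 hr'0.le) (hf.continuous.norm.continuousOn)
  set m : ℝ := ‖f w₀‖ with hm
  have hm0 : 0 < m := norm_pos_iff.2 (hsph w₀ hw₀)
  rw [Metric.tendstoUniformlyOn_iff] at hlim
  filter_upwards [hlim (m / 2) (by linarith), hfn] with n hn hdn
  by_contra hno
  push Not at hno
  have hnz : ∀ w ∈ closedBall z₀ r', fn n w ≠ 0 := fun w hw =>
    hno w (closedBall_subset_ball hr'r hw)
  have hfr : ∀ w ∈ frontier (ball z₀ r'), ‖(fn n w)⁻¹‖ ≤ 2 / m := by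
    intro w hw
    rw [frontier_ball _ hr'0.ne'] at hw
    have h2 : m ≤ ‖f w‖ := hmin hw
    have h3 := hn w (closedBall_subset_closedBall hr'r.le (sphere_subset_closedBall hw))
    rw [dist_eq_norm] at h3
    have h4 : ‖f w‖ ≤ ‖f w - fn n w‖ + ‖fn n w‖ := by
      simpa using norm_add_le (f w - fn n w) (fn n w)
    have h5 : m / 2 ≤ ‖fn n w‖ := by linarith
    rw [norm_inv]
    calc ‖fn n w‖⁻¹ ≤ (m / 2)⁻¹ := inv_anti₀ (by linarith) h5
      _ = 2 / m := by rw [inv_div]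
  have hd : DiffContOnCl ℂ (fun w => (fn n w)⁻¹) (ball z₀ r') := by
    refine DifferentiableOn.diffContOnCl ?_
    rw [closure_ball _ hr'0.ne']
    exact hdn.differentiableOn.inv hnz
  have h6 := Complex.norm_le_of_forall_mem_frontier_norm_le isBounded_ball hd hfr
    (subset_closure (mem_ball_self hr'0))
  have h7 := hn z₀ (mem_closedBall_self hr.le)
  rw [h0, dist_eq_norm, zero_sub, norm_neg] at h7
  have h8 : 0 < ‖fn n z₀‖ := norm_pos_iff.2 (hnz z₀ (mem_closedBall_self hr'0.le))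
  rw [norm_inv] at h6
  have h9 : (m / 2)⁻¹ < ‖fn n z₀‖⁻¹ := inv_strictAnti₀ h8 h7
  rw [inv_div] at h9
  linarith

lemma Kn.int_exp {K : ℝ → ℝ} (h : Kn K) (R : ℝ) :
    Integrable (fun u : ℝ => K u * Real.exp (R * |u|)) := by
  obtain ⟨A, B, hA, hB, hb⟩ := h.bound
  have hi := Pool.Agent.Helper36.XD.integrable_exp_neg_abs
  refine (hi.const_mul (A * Real.exp (B * (1 + |R|) ^ (3 / 2 : ℝ)))).mono'
    (h.cont.mul (by fun_prop)).aestronglyMeasurable (ae_of_all _ fun u => ?_)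
  rw [Real.norm_eq_abs, abs_of_pos (mul_pos (h.pos u) (Real.exp_pos _))]
  refine le_trans ?_ (hb |R| (abs_nonneg R) u)
  refine mul_le_mul_of_nonneg_left (Real.exp_le_exp.2 ?_) (h.pos u).le
  exact mul_le_mul_of_nonneg_right (le_abs_self R) (abs_nonneg u)

/-- convergence of the transforms -/
lemma FK_unif {ι : Type} {l : Filter ι} [l.IsCountablyGenerated] {Ki : ι → ℝ → ℝ}
    {K0 W : ℝ → ℝ} (hW : Kn W) (hKi : ∀ i, Kn (Ki i)) (hK0 : Kn K0)
    (hdom : ∀ᶠ i in l, ∀ u, Ki i u ≤ W u) (hdom0 : ∀ u, K0 u ≤ W u)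
    (hlim : ∀ u, Tendsto (fun i => Ki i u) l (𝓝 (K0 u))) (z₀ : ℂ) (r : ℝ) :
    TendstoUniformlyOn (fun i => FK (Ki i)) (FK K0) l (closedBall z₀ r) := by
  set R : ℝ := ‖z₀‖ + r with hR
  have he : Tendsto (fun i => ∫ u : ℝ, |Ki i u - K0 u| * Real.exp (R * |u|)) l
      (𝓝 (∫ u : ℝ, (0 : ℝ))) := by
    refine tendsto_integral_filter_of_dominated_convergence
      (fun u => W u * Real.exp (R * |u|)) ?_ ?_ (hW.int_exp R) ?_
    · exact Eventually.of_forall fun i =>
        ((((hKi i).cont.sub hK0.cont).abs).mul (by fun_prop)).aestronglyMeasurable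
    · filter_upwards [hdom] with i hi
      refine ae_of_all _ fun u => ?_
      rw [Real.norm_eq_abs, abs_of_nonneg (by positivity)]
      refine mul_le_mul_of_nonneg_right (abs_le.2 ⟨?_, ?_⟩) (Real.exp_pos _).le
      · have h1 := (hKi i).pos u
        have h2 := hdom0 u
        linarith
      · have h1 := hK0.pos u
        have h2 := hi u
        linarith
    · refine ae_of_all _ fun u => ?_
      have h1 := ((hlim u).sub_const (K0 u)).abs.mul_const (Real.exp (R * |u|))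
      simpa using h1
  rw [integral_zero] at he
  rw [Metric.tendstoUniformlyOn_iff]
  intro ε hε
  filter_upwards [he.eventually (gt_mem_nhds hε)] with i hi z hz
  rw [dist_comm, dist_eq_norm]
  refine lt_of_le_of_lt ?_ hi
  have hint : Integrable (fun u : ℝ => |Ki i u - K0 u| * Real.exp (R * |u|)) := by
    have h1 : Integrable (fun u : ℝ => Ki i u * Real.exp (R * |u|) + K0 u * Real.exp (R * |u|)) :=
      ((hKi i).int_exp R).add (hK0.int_exp R)
    refine h1.mono' ((((hKi i).cont.sub hK0.cont).abs).mul (by fun_prop)).aestronglyMeasurable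
      (ae_of_all _ fun u => ?_)
    rw [Real.norm_eq_abs, abs_of_nonneg (by positivity), ← add_mul]
    refine mul_le_mul_of_nonneg_right (abs_le.2 ⟨?_, ?_⟩) (Real.exp_pos _).le
    · have h1 := (hKi i).pos u
      have h2 := hK0.pos u
      linarith
    · have h1 := (hKi i).pos u
      have h2 := hK0.pos u
      linarith
  unfold FK
  rw [← integral_sub ((hKi i).integrable z) (hK0.integrable z)]
  refine norm_integral_le_of_norm_le hint (ae_of_all _ fun u => ?_)
  rw [← sub_mul, norm_mul, ← ofReal_sub, Complex.norm_real, Real.norm_eq_abs]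
  refine mul_le_mul_of_nonneg_left ((Kn.norm_exp z u).trans (Real.exp_le_exp.2 ?_)) (abs_nonneg _)
  refine mul_le_mul_of_nonneg_right ?_ (abs_nonneg u)
  have h1 : ‖z‖ ≤ R := by
    have h2 : ‖z - z₀‖ ≤ r := by simpa [dist_eq_norm] using hz
    have h3 : ‖z‖ ≤ ‖z - z₀‖ + ‖z₀‖ := by simpa using norm_add_le (z - z₀) z₀
    linarith
  exact (Complex.abs_im_le_norm z).trans h1

lemma one_add_le_cosh (x : ℝ) : 1 + x ^ 2 / 2 ≤ Real.cosh x := by
  have h1 : Real.cosh x = 1 + 2 * Real.sinh (x / 2) ^ 2 := by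
    have h2 := Real.cosh_two_mul (x / 2)
    have h3 := Real.cosh_sq (x / 2)
    rw [show 2 * (x / 2) = x by ring] at h2
    linarith
  have h2 : (x / 2) ^ 2 ≤ Real.sinh (x / 2) ^ 2 := by
    rw [← sq_abs, ← sq_abs (Real.sinh (x / 2)), Real.abs_sinh]
    exact pow_le_pow_left₀ (abs_nonneg _) (Real.self_le_sinh_iff.2 (abs_nonneg _)) 2
  rw [h1]
  nlinarith

lemma cosh_pow_le {t : ℝ} (ht : 0 ≤ t) (n : ℕ) (hn : 0 < n) (u : ℝ) :
    Real.cosh (Real.sqrt (2 * t / n) * u) ^ n ≤ Real.exp (t * u ^ 2) := by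
  have hnR : (0 : ℝ) < n := by exact_mod_cast hn
  calc Real.cosh (Real.sqrt (2 * t / n) * u) ^ n
      ≤ Real.exp ((Real.sqrt (2 * t / n) * u) ^ 2 / 2) ^ n :=
        pow_le_pow_left₀ (Real.cosh_pos _).le (Real.cosh_le_exp_half_sq _) n
    _ = Real.exp (t * u ^ 2) := by
        rw [← Real.exp_nat_mul, mul_pow, Real.sq_sqrt (by positivity)]
        congr 1
        field_simp

lemma cosh_pow_tendsto {t : ℝ} (ht : 0 ≤ t) (u : ℝ) :
    Tendsto (fun n : ℕ => Real.cosh (Real.sqrt (2 * t / (n + 1 : ℕ)) * u) ^ (n + 1)) atTop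
      (𝓝 (Real.exp (t * u ^ 2))) := by
  have h1 : Tendsto (fun n : ℕ => (1 + (t * u ^ 2) / (n + 1 : ℕ)) ^ (n + 1)) atTop
      (𝓝 (Real.exp (t * u ^ 2))) :=
    (Real.tendsto_one_add_div_pow_exp (t * u ^ 2)).comp (tendsto_add_atTop_nat 1)
  refine tendsto_of_tendsto_of_tendsto_of_le_of_le h1 tendsto_const_nhds ?_ ?_
  · intro n
    have hnR : (0 : ℝ) < (n + 1 : ℕ) := by positivity
    have h2 := one_add_le_cosh (Real.sqrt (2 * t / (n + 1 : ℕ)) * u)
    rw [mul_pow, Real.sq_sqrt (by positivity)] at h2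
    refine pow_le_pow_left₀ (by positivity) (le_trans (le_of_eq ?_) h2) _
    field_simp
  · intro n
    exact cosh_pow_le ht (n + 1) (Nat.succ_pos n) u

/-- de Bruijn's theorem -/
theorem deB {K : ℝ → ℝ} (h : Kn K) {D : ℝ} (hD : 0 ≤ D) (hz : ∀ z, FK K z = 0 → z.im ^ 2 ≤ D)
    {t : ℝ} (ht : 0 < t) :
    ∀ z, FK (fun u => K u * Real.exp (t * u ^ 2)) z = 0 → z.im ^ 2 ≤ max (D - 2 * t) 0 := by
  intro z h0
  by_contra hlt
  push Not at hlt
  set E : ℝ := max (D - 2 * t) 0 with hE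
  have hE0 : 0 ≤ E := le_max_right _ _
  have hE1 : Real.sqrt E < |z.im| := by
    rw [Real.sqrt_lt' (by
      rw [abs_pos]
      intro h1
      rw [h1] at hlt
      norm_num at hlt
      linarith), sq_abs]
    exact hlt
  set r : ℝ := |z.im| - Real.sqrt E with hr
  have hr0 : 0 < r := by linarith
  have hs : ∀ n : ℕ, 0 < Real.sqrt (2 * t / (n + 1 : ℕ)) := fun n =>
    Real.sqrt_pos.2 (by positivity)
  have hst := fun n : ℕ => steps h hD hz (hs n) (n + 1)
  have hunif := FK_unif (l := (atTop : Filter ℕ))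
    (Ki := fun n u => K u * Real.cosh (Real.sqrt (2 * t / (n + 1 : ℕ)) * u) ^ (n + 1))
    (K0 := fun u => K u * Real.exp (t * u ^ 2)) (h.heat t) (fun n => (hst n).1) (h.heat t)
    (Eventually.of_forall fun n u =>
      mul_le_mul_of_nonneg_left (cosh_pow_le ht.le (n + 1) (Nat.succ_pos n) u) (h.pos u).le)
    (fun u => le_rfl) (fun u => (cosh_pow_tendsto ht.le u).const_mul (K u)) z r
  have hev := hurwitz (FK_diff (h.heat t)) (Eventually.of_forall fun n => FK_diff (hst n).1) hr0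
    hunif h0 (FK_zero_ne (h.heat t))
  obtain ⟨n, w, hw, hw0⟩ := hev.exists
  have h1 := (hst n).2 w hw0
  have h2 : ((n + 1 : ℕ) : ℝ) * Real.sqrt (2 * t / (n + 1 : ℕ)) ^ 2 = 2 * t := by
    rw [Real.sq_sqrt (by positivity)]
    field_simp
  rw [h2] at h1
  have h3 : |w.im| ≤ Real.sqrt E := Real.abs_le_sqrt h1
  have h4 : ‖w - z‖ < r := by simpa [dist_eq_norm] using hw
  have h5 : |w.im - z.im| ≤ ‖w - z‖ := by
    rw [← sub_im]
    exact Complex.abs_im_le_norm _
  have h6 : |z.im| ≤ |w.im - z.im| + |w.im| := by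
    rw [abs_sub_comm]
    have := abs_add_le (z.im - w.im) w.im
    simpa using this
  linarith

/-- continuity of the heat flow -/
lemma heat_unif {K : ℝ → ℝ} (h : Kn K) {ι : Type} {l : Filter ι} [l.IsCountablyGenerated]
    {t : ι → ℝ} {t₀ : ℝ} (ht : Tendsto t l (𝓝 t₀)) (z₀ : ℂ) (r : ℝ) :
    TendstoUniformlyOn (fun i => FK (fun u => K u * Real.exp (t i * u ^ 2)))
      (FK (fun u => K u * Real.exp (t₀ * u ^ 2))) l (closedBall z₀ r) := by
  refine FK_unif (W := fun u => K u * Real.exp ((t₀ + 1) * u ^ 2)) (h.heat _)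
    (fun i => h.heat _) (h.heat _) ?_ ?_ ?_ z₀ r
  · filter_upwards [ht.eventually (gt_mem_nhds (lt_add_one t₀))] with i hi u
    refine mul_le_mul_of_nonneg_left (Real.exp_le_exp.2 ?_) (h.pos u).le
    exact mul_le_mul_of_nonneg_right hi.le (sq_nonneg u)
  · intro u
    refine mul_le_mul_of_nonneg_left (Real.exp_le_exp.2 ?_) (h.pos u).le
    exact mul_le_mul_of_nonneg_right (by linarith) (sq_nonneg u)
  · intro u
    refine Tendsto.const_mul _ ?_
    exact (Real.continuous_exp.tendsto _).comp (ht.mul_const _)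

end Pool.Agent.Helper27.DN
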