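import Pool.Agent.Helper27.DN.Cls
import Pool.Agent.Helper36.XD2

/-!
# Fourier transforms of even positive kernels with double exponential decay
-/

set_option autoImplicit false

namespace Pool.Agent.Helper27.DN

open Complex Filter Topology Metric MeasureTheory
open Pool.Agent.Helper36.XD (Dec LT)
open scoped ComplexConjugate

/-- admissible kernels -/
structure Kn (K : ℝ → ℝ) : Prop where
  cont : Continuous K
  even : ∀ u, K (-u) = K u
  pos : ∀ u, 0 < K u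
  dec : ∃ C c : ℝ, 0 < c ∧ ∀ u, K u ≤ C * Real.exp (-(c * Real.exp |u|))

/-- the Fourier transform -/
noncomputable def FK (K : ℝ → ℝ) (z : ℂ) : ℂ := ∫ u : ℝ, (K u : ℂ) * cexp (I * z * u)

lemma cube_le_exp {x : ℝ} (hx : 0 ≤ x) : x ^ 3 / 6 ≤ Real.exp x := by
  have h := Real.pow_div_factorial_le_exp x hx 3
  simpa [Nat.factorial] using h

lemma lin_le {c : ℝ} (hc : 0 < c) : ∃ B : ℝ, 0 ≤ B ∧ ∀ r x : ℝ, 0 ≤ r → 0 ≤ x →
    (r + 1) * x ≤ c * Real.exp x + B * (1 + r) ^ (3 / 2 : ℝ) := by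
  refine ⟨Real.sqrt (6 / c), Real.sqrt_nonneg _, fun r x hr hx => ?_⟩
  have h1 := cube_le_exp hx
  have hr1 : 0 < 1 + r := by linarith
  rcases le_or_gt (6 * (r + 1) / c) (x ^ 2) with h | h
  · have h2 : (r + 1) * x ≤ c * (x ^ 3 / 6) := by
      rw [div_le_iff₀ hc] at h
      nlinarith
    have h3 : c * (x ^ 3 / 6) ≤ c * Real.exp x := mul_le_mul_of_nonneg_left h1 hc.le
    have h4 : 0 ≤ Real.sqrt (6 / c) * (1 + r) ^ (3 / 2 : ℝ) := by positivity
    linarith
  · have h2 : x ≤ Real.sqrt (6 * (r + 1) / c) := Real.le_sqrt_of_sq_le h.le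
    have h3 : Real.sqrt (6 * (r + 1) / c) = Real.sqrt (6 / c) * Real.sqrt (1 + r) := by
      rw [← Real.sqrt_mul (by positivity)]
      congr 1
      ring
    have h4 : (1 + r) ^ (3 / 2 : ℝ) = (1 + r) * Real.sqrt (1 + r) := by
      rw [Real.sqrt_eq_rpow, show (3 / 2 : ℝ) = 1 + 1 / 2 by norm_num, Real.rpow_add hr1,
        Real.rpow_one]
    rw [h4]
    have h5 : (r + 1) * x ≤ (r + 1) * (Real.sqrt (6 / c) * Real.sqrt (1 + r)) := by
      rw [← h3]
      exact mul_le_mul_of_nonneg_left h2 (by linarith)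
    have h6 : 0 ≤ c * Real.exp x := by positivity
    nlinarith

lemma sq_le {c t : ℝ} (hc : 0 < c) (ht : 0 ≤ t) : ∃ B : ℝ, 0 ≤ B ∧ ∀ x : ℝ, 0 ≤ x →
    t * x ^ 2 ≤ c * Real.exp x + B := by
  refine ⟨36 * t ^ 3 / c ^ 2, by positivity, fun x hx => ?_⟩
  have h1 := cube_le_exp hx
  have h0 : 0 ≤ 36 * t ^ 3 / c ^ 2 := by positivity
  rcases le_or_gt (6 * t / c) x with h | h
  · have h2 : t * x ^ 2 ≤ c * (x ^ 3 / 6) := by
      rw [div_le_iff₀ hc] at h
      nlinarith [sq_nonneg x]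
    have h3 : c * (x ^ 3 / 6) ≤ c * Real.exp x := mul_le_mul_of_nonneg_left h1 hc.le
    linarith
  · have h2 : x ^ 2 ≤ (6 * t / c) ^ 2 := pow_le_pow_left₀ hx h.le 2
    have h3 : t * x ^ 2 ≤ t * (6 * t / c) ^ 2 := mul_le_mul_of_nonneg_left h2 ht
    have h4 : t * (6 * t / c) ^ 2 = 36 * t ^ 3 / c ^ 2 := by
      field_simp
      ring
    have h5 : 0 ≤ c * Real.exp x := by positivity
    linarith

lemma Kn.bound {K : ℝ → ℝ} (h : Kn K) : ∃ A B : ℝ, 0 ≤ A ∧ 0 ≤ B ∧ ∀ r : ℝ, 0 ≤ r → ∀ u : ℝ,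
    K u * Real.exp (r * |u|) ≤ A * Real.exp (B * (1 + r) ^ (3 / 2 : ℝ)) * Real.exp (-|u|) := by
  obtain ⟨C, c, hc, hK⟩ := h.dec
  obtain ⟨B, hB, hl⟩ := lin_le hc
  have hC : 0 ≤ C := by
    have h1 := (h.pos 0).le.trans (hK 0)
    by_contra h2
    push Not at h2
    have := mul_neg_of_neg_of_pos h2 (Real.exp_pos (-(c * Real.exp |(0 : ℝ)|)))
    linarith
  refine ⟨C, B, hC, hB, fun r hr u => ?_⟩
  have h1 := hl r |u| hr (abs_nonneg u)
  calc K u * Real.exp (r * |u|) ≤ (C * Real.exp (-(c * Real.exp |u|))) * Real.exp (r * |u|) :=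
        mul_le_mul_of_nonneg_right (hK u) (Real.exp_pos _).le
    _ = C * Real.exp (-(c * Real.exp |u|) + r * |u|) := by rw [Real.exp_add]; ring
    _ ≤ C * Real.exp (B * (1 + r) ^ (3 / 2 : ℝ) + -|u|) := by
        refine mul_le_mul_of_nonneg_left (Real.exp_le_exp.2 ?_) hC
        linarith
    _ = _ := by rw [Real.exp_add]; ring

lemma Kn.mul {K W : ℝ → ℝ} (h : Kn K) (hW : Continuous W) (he : ∀ u, W (-u) = W u)
    (hp : ∀ u, 0 < W u) {a b : ℝ} (hb : 0 ≤ b) (hle : ∀ u, W u ≤ Real.exp (a + b * u ^ 2)) :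
    Kn (fun u => K u * W u) := by
  obtain ⟨C, c, hc, hK⟩ := h.dec
  obtain ⟨B, hB, hs⟩ := sq_le (c := c / 2) (t := b) (by linarith) hb
  have hC : 0 ≤ C := by
    have h1 := (h.pos 0).le.trans (hK 0)
    by_contra h2
    push Not at h2
    have := mul_neg_of_neg_of_pos h2 (Real.exp_pos (-(c * Real.exp |(0 : ℝ)|)))
    linarith
  refine ⟨h.cont.mul hW, fun u => by rw [h.even, he], fun u => mul_pos (h.pos u) (hp u),
    C * Real.exp (a + B), c / 2, by linarith, fun u => ?_⟩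
  have h1 := hs |u| (abs_nonneg u)
  rw [sq_abs] at h1
  calc K u * W u ≤ (C * Real.exp (-(c * Real.exp |u|))) * Real.exp (a + b * u ^ 2) :=
        mul_le_mul (hK u) (hle u) (hp u).le (by positivity)
    _ = C * Real.exp (-(c * Real.exp |u|) + (a + b * u ^ 2)) := by
        rw [Real.exp_add (-(c * Real.exp |u|))]; ring
    _ ≤ C * Real.exp ((a + B) + -(c / 2 * Real.exp |u|)) := by
        refine mul_le_mul_of_nonneg_left (Real.exp_le_exp.2 ?_) hC
        linarith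
    _ = _ := by rw [Real.exp_add]; ring

lemma Kn.heat {K : ℝ → ℝ} (h : Kn K) (t : ℝ) : Kn (fun u => K u * Real.exp (t * u ^ 2)) := by
  refine h.mul (W := fun u => Real.exp (t * u ^ 2)) (by fun_prop) (fun u => by rw [neg_sq])
    (fun u => Real.exp_pos _) (a := 0) (b := |t|) (abs_nonneg t) (fun u => ?_)
  rw [zero_add]
  refine Real.exp_le_exp.2 (mul_le_mul_of_nonneg_right (le_abs_self t) (sq_nonneg u))

lemma Kn.cosh {K : ℝ → ℝ} (h : Kn K) (s : ℝ) : Kn (fun u => K u * Real.cosh (s * u)) := by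
  refine h.mul (W := fun u => Real.cosh (s * u)) (by fun_prop)
    (fun u => by rw [mul_neg, Real.cosh_neg]) (fun u => Real.cosh_pos _) (a := 0) (b := s ^ 2 / 2)
    (by positivity) (fun u => ?_)
  refine (Real.cosh_le_exp_half_sq _).trans (le_of_eq ?_)
  congr 1
  ring

lemma Kn.norm_exp (z : ℂ) (u : ℝ) : ‖cexp (I * z * u)‖ ≤ Real.exp (|z.im| * |u|) := by
  rw [Complex.norm_exp]
  apply Real.exp_le_exp.2
  simp only [mul_re, mul_im, I_re, I_im, ofReal_re, ofReal_im, zero_mul, mul_zero, sub_zero,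
    one_mul, zero_sub, zero_add]
  rw [← abs_mul, ← abs_neg, ← neg_mul]
  exact le_abs_self _

lemma Kn.toDec {K : ℝ → ℝ} (h : Kn K) : Dec (fun u => (K u : ℂ)) := by
  obtain ⟨A, B, hA, hB, hb⟩ := h.bound
  intro N
  refine ⟨A * Real.exp (B * (1 + |N|) ^ (3 / 2 : ℝ)), fun u => ?_⟩
  have h1 := hb |N| (abs_nonneg N) u
  rw [Complex.norm_real, Real.norm_eq_abs, abs_of_pos (h.pos u)]
  have h2 : Real.exp (-|u|) ≤ 1 := by
    rw [Real.exp_le_one_iff]
    linarith [abs_nonneg u]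
  have h3 : K u = (K u * Real.exp (|N| * |u|)) * Real.exp (-(|N| * |u|)) := by
    rw [mul_assoc, ← Real.exp_add]
    simp
  have hAB : 0 ≤ A * Real.exp (B * (1 + |N|) ^ (3 / 2 : ℝ)) := by positivity
  rw [h3]
  have h4 : K u * Real.exp (|N| * |u|) ≤ A * Real.exp (B * (1 + |N|) ^ (3 / 2 : ℝ)) := by
    refine h1.trans ?_
    calc A * Real.exp (B * (1 + |N|) ^ (3 / 2 : ℝ)) * Real.exp (-|u|)
        ≤ A * Real.exp (B * (1 + |N|) ^ (3 / 2 : ℝ)) * 1 := mul_le_mul_of_nonneg_left h2 hAB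
      _ = _ := mul_one _
  have h5 : Real.exp (-(|N| * |u|)) ≤ Real.exp (-(N * |u|)) := by
    refine Real.exp_le_exp.2 ?_
    have := mul_le_mul_of_nonneg_right (le_abs_self N) (abs_nonneg u)
    linarith
  exact mul_le_mul h4 h5 (Real.exp_pos _).le hAB

lemma Kn.meas {K : ℝ → ℝ} (h : Kn K) : AEStronglyMeasurable (fun u => (K u : ℂ)) volume :=
  (Complex.continuous_ofReal.comp h.cont).aestronglyMeasurable

lemma FK_eq_LT (K : ℝ → ℝ) (z : ℂ) : FK K z = LT (fun u => (K u : ℂ)) (I * z) := rfl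

lemma Kn.integrable {K : ℝ → ℝ} (h : Kn K) (z : ℂ) :
    Integrable (fun u : ℝ => (K u : ℂ) * cexp (I * z * u)) :=
  h.toDec.integrable h.meas (I * z)

lemma FK_hasDerivAt {K : ℝ → ℝ} (h : Kn K) (z : ℂ) :
    HasDerivAt (FK K) (∫ u : ℝ, (K u : ℂ) * (I * u) * cexp (I * z * u)) z := by
  have h1 := Pool.Agent.Helper36.XD.LT_hasDerivAt h.meas h.toDec (I * z)
  have h2 : HasDerivAt (fun z : ℂ => I * z) I z := by simpa using (hasDerivAt_id z).const_mul I
  have h3 := h1.comp z h2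
  refine h3.congr_deriv ?_
  unfold Pool.Agent.Helper36.XD.LT
  rw [← integral_mul_const]
  refine integral_congr_ae (ae_of_all _ fun u => ?_)
  ring

lemma FK_diff {K : ℝ → ℝ} (h : Kn K) : Differentiable ℂ (FK K) :=
  fun z => (FK_hasDerivAt h z).differentiableAt

lemma FK_even {K : ℝ → ℝ} (h : Kn K) (z : ℂ) : FK K (-z) = FK K z := by
  unfold FK
  rw [← integral_neg_eq_self]
  refine integral_congr_ae (ae_of_all _ fun u => ?_)
  simp only [h.even]
  congr 2
  push_cast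
  ring

lemma FK_conj {K : ℝ → ℝ} (h : Kn K) (z : ℂ) : FK K (conj z) = conj (FK K z) := by
  rw [← FK_even h]
  unfold FK
  rw [← integral_conj]
  refine integral_congr_ae (ae_of_all _ fun u => ?_)
  simp only [map_mul, conj_ofReal, ← Complex.exp_conj, conj_I]
  congr 2
  ring

/-- the values on the imaginary axis -/
noncomputable def ch (K : ℝ → ℝ) (a : ℝ) : ℝ := ∫ u : ℝ, K u * Real.cosh (a * u)

lemma Kn.int_cosh {K : ℝ → ℝ} (h : Kn K) (a : ℝ) : Integrable (fun u => K u * Real.cosh (a * u)) := by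
  have h1 := ((h.cosh a).integrable 0).re
  refine h1.congr (ae_of_all _ fun u => ?_)
  simp only [mul_zero, zero_mul, Complex.exp_zero, mul_one, RCLike.re_to_complex, ofReal_re]

lemma FK_I {K : ℝ → ℝ} (h : Kn K) (a : ℝ) : FK K (I * a) = (ch K a : ℂ) := by
  have h1 : FK K (I * a) + FK K (I * a) = 2 * (ch K a : ℂ) := by
    nth_rewrite 2 [← FK_even h]
    unfold FK ch
    rw [← integral_add (h.integrable _) (h.integrable _), ← integral_complex_ofReal,
      ← integral_const_mul]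
    refine integral_congr_ae (ae_of_all _ fun u => ?_)
    simp only
    push_cast
    have hI : I ^ 2 = -1 := I_sq
    have e1 : I * (I * a) * u = -((a : ℂ) * u) := by linear_combination (a * u : ℂ) * hI
    have e2 : I * -(I * a) * u = (a : ℂ) * u := by linear_combination (-(a * u) : ℂ) * hI
    rw [e1, e2, Complex.cosh]
    ring
  linear_combination h1 / 2

lemma ch_pos {K : ℝ → ℝ} (h : Kn K) (a : ℝ) : 0 < ch K a := by
  unfold ch
  refine (integral_pos_iff_support_of_nonneg (fun u => ?_) (h.int_cosh a)).2 ?_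
  · exact (mul_pos (h.pos u) (Real.cosh_pos _)).le
  · have : Function.support (fun u : ℝ => K u * Real.cosh (a * u)) = Set.univ := by
      ext u
      simp only [Function.mem_support, Set.mem_univ, iff_true]
      exact (mul_pos (h.pos u) (Real.cosh_pos _)).ne'
    rw [this]
    simp

lemma ch_lt {K : ℝ → ℝ} (h : Kn K) {a b : ℝ} (ha : 0 ≤ a) (hab : a < b) : ch K a < ch K b := by
  have h1 : ch K b - ch K a = ∫ u : ℝ, K u * (Real.cosh (b * u) - Real.cosh (a * u)) := by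
    unfold ch
    rw [← integral_sub (h.int_cosh b) (h.int_cosh a)]
    refine integral_congr_ae (ae_of_all _ fun u => ?_)
    ring
  have hlt : ∀ u : ℝ, u ≠ 0 → Real.cosh (a * u) < Real.cosh (b * u) := by
    intro u hu
    rw [Real.cosh_lt_cosh, abs_mul, abs_mul, abs_of_nonneg ha, abs_of_pos (ha.trans_lt hab)]
    exact mul_lt_mul_of_pos_right hab (abs_pos.2 hu)
  have hle : ∀ u : ℝ, Real.cosh (a * u) ≤ Real.cosh (b * u) := by
    intro u
    rcases eq_or_ne u 0 with rfl | hu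
    · simp
    · exact (hlt u hu).le
  have hint : Integrable (fun u : ℝ => K u * (Real.cosh (b * u) - Real.cosh (a * u))) := by
    refine ((h.int_cosh b).sub (h.int_cosh a)).congr (ae_of_all _ fun u => ?_)
    simp only [Pi.sub_apply]
    ring
  have h2 : 0 < ∫ u : ℝ, K u * (Real.cosh (b * u) - Real.cosh (a * u)) := by
    refine (integral_pos_iff_support_of_nonneg (fun u => ?_) hint).2 ?_
    · exact mul_nonneg (h.pos u).le (sub_nonneg.2 (hle u))
    · have hsub : Set.Ioo (0 : ℝ) 1 ⊆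
          Function.support (fun u : ℝ => K u * (Real.cosh (b * u) - Real.cosh (a * u))) := by
        intro u hu
        rw [Function.mem_support]
        exact (mul_pos (h.pos u) (sub_pos.2 (hlt u hu.1.ne'))).ne'
      refine lt_of_lt_of_le ?_ (measure_mono hsub)
      simp
  linarith

lemma FK_mono {K : ℝ → ℝ} (h : Kn K) (a b : ℝ) (ha : 0 ≤ a) (hab : a < b) :
    ‖FK K (I * a)‖ < ‖FK K (I * b)‖ := by
  rw [FK_I h, FK_I h, Complex.norm_real, Complex.norm_real, Real.norm_eq_abs, Real.norm_eq_abs,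
    abs_of_pos (ch_pos h a), abs_of_pos (ch_pos h b)]
  exact ch_lt h ha hab

lemma FK_zero_ne {K : ℝ → ℝ} (h : Kn K) : FK K 0 ≠ 0 := by
  have h1 := FK_I h 0
  rw [ofReal_zero, mul_zero] at h1
  rw [h1]
  exact_mod_cast (ch_pos h 0).ne'

lemma FK_norm_le {K : ℝ → ℝ} (h : Kn K) : ∃ A B : ℝ, 0 ≤ A ∧ 0 ≤ B ∧ ∀ z : ℂ,
    ‖FK K z‖ ≤ A * Real.exp (B * (1 + ‖z‖) ^ (3 / 2 : ℝ)) := by
  obtain ⟨A, B, hA, hB, hb⟩ := h.bound
  have hi := Pool.Agent.Helper36.XD.integrable_exp_neg_abs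
  refine ⟨A * ∫ u : ℝ, Real.exp (-|u|), B,
    mul_nonneg hA (integral_nonneg fun u => (Real.exp_pos _).le), hB, fun z => ?_⟩
  unfold FK
  calc ‖∫ u : ℝ, (K u : ℂ) * cexp (I * z * u)‖
      ≤ ∫ u : ℝ, A * Real.exp (B * (1 + ‖z‖) ^ (3 / 2 : ℝ)) * Real.exp (-|u|) := by
        refine norm_integral_le_of_norm_le (hi.const_mul _) (ae_of_all _ fun u => ?_)
        rw [norm_mul, Complex.norm_real, Real.norm_eq_abs, abs_of_pos (h.pos u)]
        refine le_trans ?_ (hb ‖z‖ (norm_nonneg z) u)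
        refine mul_le_mul_of_nonneg_left ((Kn.norm_exp z u).trans ?_) (h.pos u).le
        refine Real.exp_le_exp.2 (mul_le_mul_of_nonneg_right ?_ (abs_nonneg u))
        exact Complex.abs_im_le_norm z
    _ = _ := by rw [integral_const_mul]; ring

lemma FK_growth {K : ℝ → ℝ} (h : Kn K) : ∃ C ρ₀ : ℝ, ∀ ρ : ℝ, ρ₀ ≤ ρ →
    ∀ w ∈ closedBall (0 : ℂ) (2 * ρ), ‖FK K w‖ ≤ Real.exp (C * ρ ^ (3 / 2 : ℝ)) := by
  obtain ⟨A, B, hA, hB, hb⟩ := FK_norm_le h
  refine ⟨A + B * 3 ^ (3 / 2 : ℝ), 1, fun ρ hρ w hw => ?_⟩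
  rw [mem_closedBall_zero_iff] at hw
  have hρ0 : 0 < ρ := by linarith
  have h1 : A ≤ Real.exp (A * ρ ^ (3 / 2 : ℝ)) := by
    have h2 : (1 : ℝ) ≤ ρ ^ (3 / 2 : ℝ) := Real.one_le_rpow hρ (by norm_num)
    have h3 := Real.add_one_le_exp (A * ρ ^ (3 / 2 : ℝ))
    nlinarith
  have h2 : (1 + ‖w‖) ^ (3 / 2 : ℝ) ≤ 3 ^ (3 / 2 : ℝ) * ρ ^ (3 / 2 : ℝ) := by
    rw [← Real.mul_rpow (by norm_num) hρ0.le]
    exact Real.rpow_le_rpow (by positivity) (by linarith) (by norm_num)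
  calc ‖FK K w‖ ≤ A * Real.exp (B * (1 + ‖w‖) ^ (3 / 2 : ℝ)) := hb w
    _ ≤ Real.exp (A * ρ ^ (3 / 2 : ℝ)) * Real.exp (B * (3 ^ (3 / 2 : ℝ) * ρ ^ (3 / 2 : ℝ))) := by
        gcongr
    _ = _ := by
        rw [← Real.exp_add]
        congr 1
        ring

lemma Kn.gcl {K : ℝ → ℝ} (h : Kn K) {Δ : ℝ} (hz : ∀ z, FK K z = 0 → |z.im| ≤ Δ) :
    Gcl (FK K) Δ :=
  ⟨FK_diff h, FK_even h, FK_conj h, FK_zero_ne h, FK_growth h, hz⟩

lemma FK_cosh {K : ℝ → ℝ} (h : Kn K) (s : ℝ) (z : ℂ) :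
    FK (fun u => K u * Real.cosh (s * u)) z = (FK K (z + I * s) + FK K (z - I * s)) / 2 := by
  unfold FK
  rw [← integral_add (h.integrable _) (h.integrable _), ← integral_div]
  refine integral_congr_ae (ae_of_all _ fun u => ?_)
  simp only
  push_cast
  have hI : I ^ 2 = -1 := I_sq
  have e1 : I * (z + I * s) * u = I * z * u + -((s : ℂ) * u) := by
    linear_combination (s * u : ℂ) * hI
  have e2 : I * (z - I * s) * u = I * z * u + (s : ℂ) * u := by
    linear_combination (-(s * u) : ℂ) * hI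
  rw [e1, e2, Complex.exp_add, Complex.exp_add, Complex.cosh]
  ring

/-- one step -/
lemma step {K : ℝ → ℝ} (h : Kn K) {D : ℝ} (hD : 0 ≤ D)
    (hz : ∀ z, FK K z = 0 → z.im ^ 2 ≤ D) {s : ℝ} (hs : 0 < s) :
    ∀ z, FK (fun u => K u * Real.cosh (s * u)) z = 0 → z.im ^ 2 ≤ max (D - s ^ 2) 0 := by
  have hG : Gcl (FK K) (Real.sqrt D) := h.gcl fun z hz0 => Real.abs_le_sqrt (hz z hz0)
  have hup : ∀ z : ℂ, 0 < z.im → max (D - s ^ 2) 0 < z.im ^ 2 →
      FK (fun u => K u * Real.cosh (s * u)) z ≠ 0 := by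
    intro z hy hlt h0
    rw [FK_cosh h, div_eq_zero_iff] at h0
    have h1 := (le_max_left (D - s ^ 2) 0).trans_lt hlt
    refine step_ne hG (Real.sqrt_nonneg _) (FK_mono h) hs hy ?_ (h0.resolve_right two_ne_zero)
    rw [Real.sq_sqrt hD]
    linarith
  intro z h0
  by_contra hlt
  push Not at hlt
  rcases lt_trichotomy z.im 0 with hy | hy | hy
  · refine hup (-z) (by simpa using hy) (by simpa using hlt) ?_
    rw [FK_even (h.cosh s), h0]
  · rw [hy] at hlt
    have := le_max_right (D - s ^ 2) 0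
    norm_num at hlt
  · exact hup z hy hlt h0

lemma steps {K : ℝ → ℝ} (h : Kn K) {D : ℝ} (hD : 0 ≤ D)
    (hz : ∀ z, FK K z = 0 → z.im ^ 2 ≤ D) {s : ℝ} (hs : 0 < s) (n : ℕ) :
    Kn (fun u => K u * Real.cosh (s * u) ^ n) ∧
    ∀ z, FK (fun u => K u * Real.cosh (s * u) ^ n) z = 0 → z.im ^ 2 ≤ max (D - n * s ^ 2) 0 := by
  induction n with
  | zero =>
    refine ⟨by simpa using h, fun z h0 => ?_⟩
    simp only [pow_zero, mul_one] at h0
    refine (hz z h0).trans ?_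
    simp
  | succ n ih =>
    obtain ⟨h1, h2⟩ := ih
    have e : (fun u => K u * Real.cosh (s * u) ^ (n + 1)) =
        fun u => (K u * Real.cosh (s * u) ^ n) * Real.cosh (s * u) := by
      funext u
      ring
    rw [e]
    refine ⟨h1.cosh s, fun z h0 => ?_⟩
    refine (step h1 (le_max_right _ _) h2 hs z h0).trans ?_
    refine max_le ?_ (le_max_right _ _)
    rcases le_total (D - n * s ^ 2) 0 with h3 | h3
    · rw [max_eq_right h3]
      have : 0 < s ^ 2 := by positivity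
      exact (by linarith : (0 : ℝ) - s ^ 2 ≤ 0).trans (le_max_right _ _)
    · rw [max_eq_left h3]
      refine le_trans (le_of_eq ?_) (le_max_left _ _)
      push_cast
      ring

end Pool.Agent.Helper27.DN
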