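import Pool.Agent.Helper27.DN.Heat
import Pool.Agent.Helper36.XD12

/-!
# Openness and closedness of the set of times with real zeros
-/

set_option autoImplicit false

namespace Pool.Agent.Helper27.DN

open Complex Filter Topology Metric MeasureTheory
open scoped ComplexConjugate
open Pool.Agent.Helper36.XD (Phi XiHeat)

lemma Kn_Phi : Kn Phi where
  cont := Pool.Agent.Helper36.XD.Phi_cont
  even := Pool.Agent.Helper36.XD.Phi_even
  pos := Pool.Agent.Helper36.XD.Phi_pos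
  dec := by
    refine ⟨1, 1 / 4, by norm_num, fun u => ?_⟩
    refine (Pool.Agent.Helper36.XD.Phi_le_abs u).trans ?_
    rw [← Real.exp_add, one_mul]
    refine Real.exp_le_exp.2 ?_
    have h1 := Real.add_one_le_exp |u|
    have h2 := Real.pi_gt_d2
    have h3 := Real.exp_pos |u|
    nlinarith

lemma XiHeat_eq_FK (t : ℝ) : XiHeat t = FK (fun u => Phi u * Real.exp (t * u ^ 2)) := rfl

lemma Kn_heat (t : ℝ) : Kn (fun u => Phi u * Real.exp (t * u ^ 2)) := Kn_Phi.heat t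

lemma XiHeat_conj (t : ℝ) (z : ℂ) : XiHeat t (conj z) = conj (XiHeat t z) := by
  rw [XiHeat_eq_FK]
  exact FK_conj (Kn_heat t) z

/-- two distinct zeros of the approximants merge into a multiple zero of the limit -/
lemma merge {f : ℂ → ℂ} {fn : ℕ → ℂ → ℂ} (hf : Differentiable ℂ f)
    (hfn : ∀ n, Differentiable ℂ (fn n)) {z₀ : ℂ} {r : ℝ} (hr : 0 < r)
    (hlim : TendstoUniformlyOn fn f atTop (closedBall z₀ r)) {z w : ℕ → ℂ}
    (hz : Tendsto z atTop (𝓝 z₀)) (hw : Tendsto w atTop (𝓝 z₀)) (hne : ∀ n, z n ≠ w n)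
    (hz0 : ∀ n, fn n (z n) = 0) (hw0 : ∀ n, fn n (w n) = 0) : deriv f z₀ = 0 := by
  by_contra hc
  set c : ℂ := deriv f z₀ with hcdef
  have hc0 : 0 < ‖c‖ := norm_pos_iff.2 hc
  have hstrict : HasStrictDerivAt f c z₀ := (hf.analyticAt z₀).hasStrictDerivAt
  have h1 := hstrict.isLittleO
  have h2 : ∀ᶠ n in atTop, ‖f (z n) - f (w n) - (z n - w n) * c‖ ≤ ‖c‖ / 4 * ‖z n - w n‖ := by
    have h3 := (hz.prodMk_nhds hw).eventually (h1.def (c := ‖c‖ / 4) (by positivity))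
    filter_upwards [h3] with n hn
    simpa [smul_eq_mul] using hn
  rw [Metric.tendstoUniformlyOn_iff] at hlim
  have h4 := hlim (‖c‖ / 4 * (r / 2)) (by positivity)
  have h5 : ∀ᶠ n in atTop, z n ∈ closedBall z₀ (r / 2) :=
    hz.eventually (closedBall_mem_nhds z₀ (by positivity))
  have h6 : ∀ᶠ n in atTop, w n ∈ closedBall z₀ (r / 2) :=
    hw.eventually (closedBall_mem_nhds z₀ (by positivity))
  obtain ⟨n, g2, g4, g5, g6⟩ := (h2.and (h4.and (h5.and h6))).exists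
  set h : ℂ → ℂ := fun x => fn n x - f x with hh
  have hd : Differentiable ℂ h := (hfn n).sub hf
  have hder : ∀ x ∈ closedBall z₀ (r / 2), ‖deriv h x‖ ≤ ‖c‖ / 4 := by
    intro x hx
    have h7 := Complex.norm_deriv_le_of_forall_mem_sphere_norm_le (c := x) (R := r / 2)
      (C := ‖c‖ / 4 * (r / 2)) (f := h) (by positivity) hd.diffContOnCl (fun y hy => by
        have hy' : y ∈ closedBall z₀ r := by
          rw [mem_closedBall] at hx ⊢
          rw [mem_sphere] at hy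
          have := dist_triangle y x z₀
          linarith
        have h8 := g4 y hy'
        rw [dist_comm, dist_eq_norm] at h8
        exact h8.le)
    refine h7.trans (le_of_eq ?_)
    field_simp
  have h9 := (convex_closedBall z₀ (r / 2)).norm_image_sub_le_of_norm_deriv_le (f := h)
    (fun x _ => hd x) hder g6 g5
  have h10 : h (z n) - h (w n) = -(f (z n) - f (w n)) := by
    simp only [hh, hz0, hw0]
    ring
  rw [h10, norm_neg] at h9
  have h11 : ‖(z n - w n) * c‖ ≤ ‖f (z n) - f (w n) - (z n - w n) * c‖ + ‖f (z n) - f (w n)‖ := by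
    have := norm_sub_le (f (z n) - f (w n)) (f (z n) - f (w n) - (z n - w n) * c)
    rw [sub_sub_cancel] at this
    linarith
  rw [norm_mul] at h11
  have h12 : 0 < ‖z n - w n‖ := norm_pos_iff.2 (sub_ne_zero.2 (hne n))
  nlinarith [mul_pos h12 hc0]

lemma XiHeat_unif {ι : Type} {l : Filter ι} [l.IsCountablyGenerated] {t : ι → ℝ} {t₀ : ℝ}
    (ht : Tendsto t l (𝓝 t₀)) (z₀ : ℂ) (r : ℝ) :
    TendstoUniformlyOn (fun i => XiHeat (t i)) (XiHeat t₀) l (closedBall z₀ r) :=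
  heat_unif Kn_Phi ht z₀ r

lemma XiHeat_diff (t : ℝ) : Differentiable ℂ (XiHeat t) := FK_diff (Kn_heat t)

lemma XiHeat_tendsto {t : ℕ → ℝ} {t₀ : ℝ} (ht : Tendsto t atTop (𝓝 t₀)) {z : ℕ → ℂ} {z₀ : ℂ}
    (hz : Tendsto z atTop (𝓝 z₀)) : Tendsto (fun n => XiHeat (t n) (z n)) atTop
      (𝓝 (XiHeat t₀ z₀)) := by
  have h1 := XiHeat_unif ht z₀ 1
  rw [Metric.tendstoUniformlyOn_iff] at h1
  rw [Metric.tendsto_nhds]
  intro ε hε
  have h2 : ∀ᶠ n in atTop, z n ∈ closedBall z₀ 1 :=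
    hz.eventually (closedBall_mem_nhds z₀ one_pos)
  have h3 := (((XiHeat_diff t₀).continuous.tendsto z₀).comp hz)
  rw [Metric.tendsto_nhds] at h3
  filter_upwards [h1 (ε / 2) (by positivity), h2, h3 (ε / 2) (by positivity)] with n g1 g2 g3
  have g4 := g1 (z n) g2
  rw [dist_comm] at g4
  have g5 := dist_triangle (XiHeat (t n) (z n)) (XiHeat t₀ (z n)) (XiHeat t₀ z₀)
  simp only [Function.comp_apply] at g3
  linarith

/-- if at time `t₀` all zeros are real and simple, then the zeros are real for all times slightly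
before `t₀` -/
theorem open_down {t₀ : ℝ} (h0 : 0 < t₀) (h1 : t₀ ≤ 1)
    (hz : ∀ z : ℂ, XiHeat t₀ z = 0 → z.im = 0 ∧ deriv (XiHeat t₀) z ≠ 0) :
    ∃ t₁ : ℝ, 0 < t₁ ∧ t₁ < t₀ ∧ ∀ t : ℝ, t₁ ≤ t → t ≤ t₀ → ∀ z : ℂ, XiHeat t z = 0 → z.im = 0 := by
  by_contra hno
  push Not at hno
  obtain ⟨C, hC, hR⟩ := Pool.Agent.Helper36.XD.real_simple
  have hseq : ∀ n : ℕ, ∃ (t : ℝ) (z : ℂ), max (t₀ / 2) (t₀ - 1 / (n + 1)) ≤ t ∧ t ≤ t₀ ∧
      XiHeat t z = 0 ∧ z.im ≠ 0 := by
    intro n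
    have hn : (0 : ℝ) < 1 / ((n : ℝ) + 1) := by positivity
    obtain ⟨t, g1, g2, z, g3, g4⟩ := hno (max (t₀ / 2) (t₀ - 1 / (n + 1)))
      (lt_max_of_lt_left (by positivity)) (max_lt (by linarith) (by linarith))
    exact ⟨t, z, g1, g2, g3, g4⟩
  choose t z ht1 ht2 hz0 him using hseq
  have htlim : Tendsto t atTop (𝓝 t₀) := by
    have h2 : Tendsto (fun n : ℕ => t₀ - 1 / ((n : ℝ) + 1)) atTop (𝓝 (t₀ - 0)) :=
      tendsto_one_div_add_atTop_nhds_zero_nat.const_sub t₀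
    rw [sub_zero] at h2
    exact tendsto_of_tendsto_of_tendsto_of_le_of_le h2 tendsto_const_nhds
      (fun n => (le_max_right _ _).trans (ht1 n)) ht2
  have hbd : ∀ n, z n ∈ closedBall (0 : ℂ) (Real.exp (C / (t₀ / 2))) := by
    intro n
    rw [mem_closedBall_zero_iff]
    by_contra hgt
    push Not at hgt
    have h3 : t₀ / 2 ≤ t n := (le_max_left _ _).trans (ht1 n)
    have h4 : 0 < t n := by linarith
    have h5 : C / t n ≤ C / (t₀ / 2) := by gcongr
    exact him n (hR (t n) h4 ((ht2 n).trans h1) (z n) (hz0 n)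
      ((Real.exp_le_exp.2 h5).trans hgt.le)).1
  obtain ⟨zs, -, φ, hφ, hlim⟩ := (isCompact_closedBall (0 : ℂ) _).tendsto_subseq hbd
  have htφ : Tendsto (t ∘ φ) atTop (𝓝 t₀) := htlim.comp hφ.tendsto_atTop
  have h6 := XiHeat_tendsto htφ hlim
  have h7 : XiHeat t₀ zs = 0 := by
    refine tendsto_nhds_unique h6 ?_
    have : (fun n => XiHeat ((t ∘ φ) n) ((z ∘ φ) n)) = fun _ => 0 := funext fun n => hz0 (φ n)
    rw [this]
    exact tendsto_const_nhds
  obtain ⟨h8, h9⟩ := hz zs h7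
  have hconj : conj zs = zs := Complex.conj_eq_iff_im.2 h8
  have hlim2 : Tendsto (fun n => conj (z (φ n))) atTop (𝓝 zs) := by
    have := (Complex.continuous_conj.tendsto zs).comp hlim
    rw [hconj] at this
    exact this
  refine h9 (merge (XiHeat_diff t₀) (fun n => XiHeat_diff (t (φ n))) one_pos
    (XiHeat_unif htφ zs 1) hlim hlim2 (fun n hn => ?_) (fun n => hz0 (φ n)) (fun n => ?_))
  · exact him (φ n) (Complex.conj_eq_iff_im.1 hn.symm)
  · rw [XiHeat_conj, hz0 (φ n), map_zero]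

/-- if the zeros are real for all times after `t₀`, then they are real at time `t₀` -/
theorem closed_real {t₀ : ℝ}
    (hz : ∀ t : ℝ, t₀ < t → ∀ z : ℂ, XiHeat t z = 0 → z.im = 0) :
    ∀ z : ℂ, XiHeat t₀ z = 0 → z.im = 0 := by
  intro z h0
  by_contra him
  have hpos : 0 < |z.im| := abs_pos.2 him
  have hlim : Tendsto (fun t : ℝ => t) (𝓝[>] t₀) (𝓝 t₀) := nhdsWithin_le_nhds
  have hev := hurwitz (XiHeat_diff t₀) (Eventually.of_forall fun t => XiHeat_diff t) hpos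
    (XiHeat_unif hlim z |z.im|) h0 (FK_zero_ne (Kn_heat t₀))
  obtain ⟨t, ⟨w, hw, hw0⟩, ht⟩ := (hev.and self_mem_nhdsWithin).exists
  have h1 := hz t ht w hw0
  rw [mem_ball, dist_eq_norm] at hw
  have h2 := Complex.abs_im_le_norm (w - z)
  rw [sub_im, h1, zero_sub, abs_neg] at h2
  linarith

end Pool.Agent.Helper27.DN
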