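import Pool.Graph.R_seed8.Helper242.KK.BC

/-!
# Even entire functions of order less than two: polynomial approximation by their zeros
-/

set_option autoImplicit false

namespace Pool.Agent.Helper27.DN

open Complex Filter Topology Metric
open Pool.Agent.Helper242.KK

theorem even_of_split {F G : ℂ → ℂ} {u : ℂ} (hu : u ≠ 0) (hG : Continuous G)
    (he : ∀ z, F (-z) = F z) (h : ∀ w, F w = (1 - w ^ 2 / u ^ 2) * G w) :
    ∀ w, G (-w) = G w := by
  have hfin : ({u, -u} : Set ℂ).Countable := (Set.toFinite _).countable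
  have hd : Dense ({u, -u} : Set ℂ)ᶜ := hfin.dense_compl ℝ
  have heq : Set.EqOn (fun w => G (-w)) G ({u, -u} : Set ℂ)ᶜ := by
    intro w hw
    have hw' : w ≠ u ∧ w ≠ -u := by simpa using hw
    have h1 := h w
    have h2 := h (-w)
    rw [he, h1, neg_sq] at h2
    have hne : 1 - w ^ 2 / u ^ 2 ≠ 0 := by
      intro h0
      have h3 : w ^ 2 = u ^ 2 := by
        have hu2 : u ^ 2 ≠ 0 := pow_ne_zero 2 hu
        field_simp at h0
        linear_combination -h0
      rcases sq_eq_sq_iff_eq_or_eq_neg.1 h3 with h4 | h4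
      · exact hw'.1 h4
      · exact hw'.2 h4
    exact (mul_left_cancel₀ hne h2).symm
  have := Continuous.ext_on hd (hG.comp continuous_neg) hG heq
  intro w
  exact congrFun this w

/-- the polynomial with the zeros `± u`, `u` in the list -/
noncomputable def PP (l : List ℂ) (w : ℂ) : ℂ := (l.map fun u => 1 - w ^ 2 / u ^ 2).prod

theorem split_list {ρ M : ℝ} (hρ : 0 < ρ) (n : ℕ) :
    ∀ F : ℂ → ℂ, Differentiable ℂ F → F 0 ≠ 0 → (∀ z, F (-z) = F z) →
    (∀ w ∈ closedBall (0 : ℂ) (2 * ρ), ‖F w‖ ≤ Real.exp M) →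
    (∑ᶠ u, (MeromorphicOn.divisor F (closedBall 0 ρ) u : ℝ) * 1) ≤ n →
    ∃ (l : List ℂ) (G : ℂ → ℂ), Differentiable ℂ G ∧ G 0 = F 0 ∧ (∀ z, G (-z) = G z) ∧
      (∀ w ∈ closedBall (0 : ℂ) (2 * ρ), ‖G w‖ ≤ Real.exp M) ∧
      (∀ u ∈ closedBall (0 : ℂ) ρ, G u ≠ 0) ∧ (∀ u ∈ l, F u = 0) ∧
      ∀ w, F w = PP l w * G w := by
  have base : ∀ F : ℂ → ℂ, Differentiable ℂ F → F 0 ≠ 0 → (∀ z, F (-z) = F z) →
      (∀ w ∈ closedBall (0 : ℂ) (2 * ρ), ‖F w‖ ≤ Real.exp M) →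
      (∀ u ∈ closedBall (0 : ℂ) ρ, F u ≠ 0) →
      ∃ (l : List ℂ) (G : ℂ → ℂ), Differentiable ℂ G ∧ G 0 = F 0 ∧ (∀ z, G (-z) = G z) ∧
      (∀ w ∈ closedBall (0 : ℂ) (2 * ρ), ‖G w‖ ≤ Real.exp M) ∧
      (∀ u ∈ closedBall (0 : ℂ) ρ, G u ≠ 0) ∧ (∀ u ∈ l, F u = 0) ∧
      ∀ w, F w = PP l w * G w := by
    intro F hF h0 he hb hnz
    exact ⟨[], F, hF, rfl, he, hb, hnz, by simp, fun w => by simp [PP]⟩
  have step : ∀ F : ℂ → ℂ, Differentiable ℂ F → F 0 ≠ 0 → (∀ z, F (-z) = F z) →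
      (∀ w ∈ closedBall (0 : ℂ) (2 * ρ), ‖F w‖ ≤ Real.exp M) →
      (∃ u ∈ closedBall (0 : ℂ) ρ, F u = 0) →
      ∃ (u : ℂ) (G : ℂ → ℂ), Differentiable ℂ G ∧ G 0 = F 0 ∧ (∀ z, G (-z) = G z) ∧
        (∀ w ∈ closedBall (0 : ℂ) (2 * ρ), ‖G w‖ ≤ Real.exp M) ∧ F u = 0 ∧
        2 + (∑ᶠ u, (MeromorphicOn.divisor G (closedBall 0 ρ) u : ℝ) * 1) =
          ∑ᶠ u, (MeromorphicOn.divisor F (closedBall 0 ρ) u : ℝ) * 1 ∧
        ∀ w, F w = (1 - w ^ 2 / u ^ 2) * G w := by
    intro F hF h0 he hb ⟨u, hu, hFu⟩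
    have hu0 : u ≠ 0 := by
      rintro rfl
      exact h0 hFu
    obtain ⟨G1, hG1, hG10, hG1b, hFG1, hdiv1⟩ := lnz_split hF hρ h0 hb hu hFu
    have h1 : G1 (-u) = 0 := by
      have h2 := hFG1 (-u)
      rw [he, hFu, neg_div, div_self hu0] at h2
      have h3 : (1 - -1 : ℂ) ≠ 0 := by norm_num
      exact (mul_eq_zero.1 h2.symm).resolve_left h3
    have hu' : -u ∈ closedBall (0 : ℂ) ρ := by simpa using hu
    obtain ⟨G, hG, hG0, hGb, hFG, hdiv⟩ :=
      lnz_split hG1 hρ (by rw [hG10]; exact h0) hG1b hu' h1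
    have hfac : ∀ w, F w = (1 - w ^ 2 / u ^ 2) * G w := by
      intro w
      rw [hFG1 w, hFG w]
      field_simp
      ring
    refine ⟨u, G, hG, hG0.trans hG10, even_of_split hu0 hG.continuous he hfac, hGb, hFu, ?_, hfac⟩
    have s1 := lnz_sum_split ρ u (fun _ => 1) hdiv1
    have s2 := lnz_sum_split ρ (-u) (fun _ => 1) hdiv
    rw [s1, s2]
    ring
  induction n using Nat.strong_induction_on with
  | _ n ih =>
    intro F hF h0 he hb hn
    by_cases hz : ∀ u ∈ closedBall (0 : ℂ) ρ, F u ≠ 0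
    · exact base F hF h0 he hb hz
    · push Not at hz
      obtain ⟨u, G, hG, hG0, hGe, hGb, hFu, hsum, hfac⟩ := step F hF h0 he hb hz
      have h2 : 0 ≤ ∑ᶠ u, (MeromorphicOn.divisor G (closedBall 0 ρ) u : ℝ) * 1 := by
        refine finsum_nonneg (fun u => mul_nonneg ?_ zero_le_one)
        exact_mod_cast lnz_divisor_nonneg hG _ u
      have hn2 : (2 : ℝ) ≤ n := by linarith
      have hn2' : 2 ≤ n := by exact_mod_cast hn2
      obtain ⟨l, H, h3, h4, h5, h6, h7, h8, h9⟩ := ih (n - 2) (by omega) G hG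
        (by rw [hG0]; exact h0) hGe hGb (by rw [Nat.cast_sub hn2']; push_cast; linarith)
      refine ⟨u :: l, H, h3, h4.trans hG0, h5, h6, h7, ?_, ?_⟩
      · intro v hv
        rcases List.mem_cons.1 hv with rfl | hv
        · exact hFu
        · rw [hfac v, h8 v hv, mul_zero]
      · intro w
        rw [hfac w, h9 w]
        simp only [PP, List.map_cons, List.prod_cons]
        ring

/-- an even function without zeros in a large disc is almost constant -/
theorem free_even {G : ℂ → ℂ} (hG : Differentiable ℂ G) (he : ∀ z, G (-z) = G z) {ρ M : ℝ}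
    (hρ : 0 < ρ) (hnz : ∀ u ∈ ball (0 : ℂ) ρ, G u ≠ 0)
    (hb : ∀ w ∈ ball (0 : ℂ) ρ, ‖G w‖ ≤ Real.exp M) {w : ℂ} (hw : ‖w‖ < ρ / 2) :
    |Real.log ‖G w‖ - Real.log ‖G 0‖| ≤
      10 * (M - Real.log ‖G 0‖ + 1) * ‖w‖ ^ 2 / ρ ^ 2 := by
  have h0 : G 0 ≠ 0 := hnz 0 (mem_ball_self hρ)
  have h0n : 0 < ‖G 0‖ := norm_pos_iff.2 h0
  have hg : DifferentiableOn ℂ (fun z => deriv G z / G z) (ball 0 ρ) := by
    refine DifferentiableOn.div ?_ hG.differentiableOn hnz
    exact (hG.contDiff (n := 2)).differentiable_deriv_two.differentiableOn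
  obtain ⟨L0, hL0⟩ := hg.isExactOn_ball
  set L : ℂ → ℂ := fun z => L0 z - L0 0 with hLdef
  have hL : ∀ z ∈ ball (0 : ℂ) ρ, HasDerivAt L (deriv G z / G z) z := fun z hz =>
    (hL0 z hz).sub_const _
  have hLz : L 0 = 0 := by simp [hLdef]
  have hconst : ∀ z ∈ ball (0 : ℂ) ρ, G z * cexp (-L z) = G 0 := by
    intro z hz
    have hd : ∀ x ∈ ball (0 : ℂ) ρ, HasDerivAt (fun y => G y * cexp (-L y)) 0 x := by
      intro x hx
      have h1 := (hG x).hasDerivAt.mul ((hL x hx).neg.cexp)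
      have e : deriv G x * cexp (-L x) + G x * (cexp (-L x) * -(deriv G x / G x)) = 0 := by
        have hx' := hnz x hx
        field_simp
        ring
      have h1' : HasDerivAt (fun y => G y * cexp (-L y))
        (deriv G x * cexp (-L x) + G x * (cexp (-L x) * -(deriv G x / G x))) x := h1
      rwa [e] at h1'
    have h2 := (convex_ball (0 : ℂ) ρ).is_const_of_fderivWithin_eq_zero (𝕜 := ℂ)
      (f := fun y => G y * cexp (-L y))
      (fun x hx => (hd x hx).differentiableAt.differentiableWithinAt) (by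
        intro x hx
        rw [((hd x hx).hasFDerivAt.hasFDerivWithinAt (s := ball (0 : ℂ) ρ)).fderivWithin
          (isOpen_ball.uniqueDiffWithinAt hx)]
        ext
        simp) hz (mem_ball_self hρ)
    simpa [hLz] using h2
  have hFL : ∀ z ∈ ball (0 : ℂ) ρ, G z = G 0 * cexp (L z) := by
    intro z hz
    rw [← hconst z hz, mul_assoc, ← Complex.exp_add]
    simp
  have hlog : ∀ z ∈ ball (0 : ℂ) ρ, Real.log ‖G z‖ = Real.log ‖G 0‖ + (L z).re := by
    intro z hz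
    rw [hFL z hz, norm_mul, Complex.norm_exp, Real.log_mul h0n.ne' (Real.exp_pos _).ne',
      Real.log_exp]
  obtain ⟨A, hA⟩ : ∃ A : ℝ, A = M - Real.log ‖G 0‖ + 1 := ⟨_, rfl⟩
  rw [← hA]
  have hre : ∀ z ∈ ball (0 : ℂ) ρ, (L z).re ≤ A - 1 := by
    intro z hz
    have h1 := hb z hz
    have h2 : Real.log ‖G z‖ ≤ M := by
      rw [← Real.log_exp M]
      exact Real.log_le_log (norm_pos_iff.2 (hnz z hz)) h1
    have h3 := hlog z hz
    linarith
  have hA1 : 0 ≤ A - 1 := by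
    have := hre 0 (mem_ball_self hρ)
    rwa [hLz] at this
  have hA0 : 0 < A := by linarith
  have hneg : ∀ z ∈ ball (0 : ℂ) ρ, -z ∈ ball (0 : ℂ) ρ := fun z hz => by simpa using hz
  have hhalf : ∀ z ∈ ball (0 : ℂ) (ρ / 2), z ∈ ball (0 : ℂ) ρ := fun z hz =>
    ball_subset_ball (by linarith) hz
  -- Borel-Caratheodory
  have hLb : ∀ z ∈ ball (0 : ℂ) (ρ / 2), ‖L z‖ ≤ 2 * A := by
    intro z hz
    have h1 := Complex.borelCaratheodory_zero (f := L) (R := ρ) (z := z) (M := A) hA0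
      (fun z hz => (hL z hz).differentiableAt.differentiableWithinAt)
      (fun z hz => by
        show (L z).re ≤ _
        linarith [hre z hz]) hρ (hhalf z hz) hLz
    refine h1.trans ?_
    have hz' : ‖z‖ < ρ / 2 := by simpa using hz
    rw [div_le_iff₀ (by linarith)]
    nlinarith
  set E : ℂ → ℂ := fun z => L z + L (-z) with hE
  have hEd : ∀ z ∈ ball (0 : ℂ) ρ, HasDerivAt E (deriv G z / G z - deriv G (-z) / G (-z)) z := by
    intro z hz
    have h1 := (hL (-z) (hneg z hz)).comp z (hasDerivAt_neg z)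
    have h2 : HasDerivAt E (deriv G z / G z + deriv G (-z) / G (-z) * -1) z := (hL z hz).add h1
    exact h2.congr_deriv (by ring)
  have hE0 : E 0 = 0 := by simp [hE, hLz]
  have hEd0 : deriv E 0 = 0 := by
    rw [(hEd 0 (mem_ball_self hρ)).deriv]
    simp
  have hEdiff : DifferentiableOn ℂ E (ball 0 (ρ / 2)) := fun z hz =>
    (hEd z (hhalf z hz)).differentiableAt.differentiableWithinAt
  have hr2 : 0 < ρ / 2 := by linarith
  have hmaps : Set.MapsTo E (ball 0 (ρ / 2)) (closedBall (E 0) (5 * A)) := by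
    intro z hz
    rw [hE0, mem_closedBall_zero_iff]
    have h1 := hLb z hz
    have h2 := hLb (-z) (by simpa using hz)
    have h3 : ‖E z‖ ≤ ‖L z‖ + ‖L (-z)‖ := norm_add_le _ _
    linarith
  have hd1 : ∀ z ∈ ball (0 : ℂ) (ρ / 2), ‖dslope E 0 z‖ ≤ 10 * A / ρ := by
    intro z hz
    have h1 := Complex.norm_dslope_le_div_of_mapsTo_ball hEdiff hmaps hz
    refine h1.trans (le_of_eq ?_)
    field_simp
    ring
  have hD0 : dslope E 0 0 = 0 := by rw [dslope_same, hEd0]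
  have hDdiff : DifferentiableOn ℂ (dslope E 0) (ball 0 (ρ / 2)) :=
    (Complex.differentiableOn_dslope (isOpen_ball.mem_nhds (mem_ball_self hr2))).2 hEdiff
  have hw' : w ∈ ball (0 : ℂ) (ρ / 2) := by simpa using hw
  have hkey : ‖E w‖ ≤ 20 * A * ‖w‖ ^ 2 / ρ ^ 2 := by
    have hmaps2 : Set.MapsTo (dslope E 0) (ball 0 (ρ / 2))
        (closedBall (dslope E 0 0) (10 * A / ρ)) := by
      intro z hz
      rw [hD0, mem_closedBall_zero_iff]
      exact hd1 z hz
    have h1 := Complex.norm_dslope_le_div_of_mapsTo_ball hDdiff hmaps2 hw'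
    have h2 : E w = w * dslope E 0 w := by
      have := sub_smul_dslope E 0 w
      rw [hE0, sub_zero, sub_zero, smul_eq_mul] at this
      exact this.symm
    have h3 : dslope E 0 w = w * dslope (dslope E 0) 0 w := by
      have := sub_smul_dslope (dslope E 0) 0 w
      rw [hD0, sub_zero, sub_zero, smul_eq_mul] at this
      exact this.symm
    rw [h2, h3, norm_mul, norm_mul, ← mul_assoc]
    calc ‖w‖ * ‖w‖ * ‖dslope (dslope E 0) 0 w‖
        ≤ ‖w‖ * ‖w‖ * ((10 * A / ρ) / (ρ / 2)) :=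
          mul_le_mul_of_nonneg_left h1 (by positivity)
      _ = 20 * A * ‖w‖ ^ 2 / ρ ^ 2 := by
          field_simp
          ring
  have hre2 : (E w).re = 2 * (Real.log ‖G w‖ - Real.log ‖G 0‖) := by
    have h1 := hlog w (hhalf w hw')
    have h2 := hlog (-w) (hneg w (hhalf w hw'))
    rw [he] at h2
    have h3 : (E w).re = (L w).re + (L (-w)).re := by simp [hE]
    linarith
  have h5 : |(E w).re| ≤ ‖E w‖ := Complex.abs_re_le_norm _
  rw [hre2, abs_mul, abs_two] at h5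
  have h6 : 20 * A * ‖w‖ ^ 2 / ρ ^ 2 = 2 * (10 * A * ‖w‖ ^ 2 / ρ ^ 2) := by ring
  linarith

end Pool.Agent.Helper27.DN
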