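import Pool.Agent.Helper36.XD3
import Pool.Graph.R_seed8.W97.TW.Delta
import Pool.Graph.R_seed8.W97.TW.Hecke
import Pool.Graph.R_seed8.W165.RS.Parseval

/-!
# The Dirichlet series of the discriminant converges absolutely for `Re s > 13/2` (by Parseval)
and has no zeros there (by the Euler product)
-/

set_option autoImplicit false

namespace Pool.Agent.Helper27.DN

open Complex Filter Topology UpperHalfPlane MatrixGroups CongruenceSubgroup MeasureTheory
open Pool.Agent.Helper36.XD (cf Ld Lam)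

/-- the recursion of the Ramanujan tau function -/
lemma cf_rec (p : Nat.Primes) : ∃ a : ℂ, ∀ m : ℕ, 0 < m →
    cf ((p : ℕ) * m) = a * cf m -
      ((p : ℕ) : ℂ) ^ 11 * (if (p : ℕ) ∣ m then cf (m / p) else 0) := by
  obtain ⟨a, ha⟩ := Pool.Agent.W97.TW.isNewform_delta.hecke p
  refine ⟨a, fun m _ => ?_⟩
  have h := Pool.Agent.W97.TW.hecke_rec Pool.Agent.W97.TW.deltaForm p.2.pos ha m
  unfold Pool.Agent.W97.TW.B at h
  rw [if_neg (fun hd => p.2.one_lt.ne' (Nat.dvd_one.mp hd))] at h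
  have h1 : ∀ n, Pool.Agent.W97.TW.A Pool.Agent.W97.TW.deltaForm n = cf n := fun n => rfl
  simp only [h1] at h
  have e : ((p : ℕ) : ℂ) ^ ((12 : ℤ) - 1) = ((p : ℕ) : ℂ) ^ 11 := by
    rw [show (12 : ℤ) - 1 = ((11 : ℕ) : ℤ) by norm_num, zpow_natCast]
  rw [e] at h
  linear_combination h

lemma cf_zero : cf 0 = 0 := Pool.Agent.W97.TW.A_zero Pool.Agent.W97.TW.deltaForm

/-- Parseval on the horocycles -/
lemma cf_sq_sum : ∃ C : ℝ, 0 ≤ C ∧ ∀ y : ℝ, 0 < y →
    Summable (fun n : ℕ => ‖cf n‖ ^ 2 * Real.exp (-(4 * Real.pi * n * y))) ∧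
    ∑' n : ℕ, ‖cf n‖ ^ 2 * Real.exp (-(4 * Real.pi * n * y)) ≤ C * (y ^ 12)⁻¹ := by
  obtain ⟨C, hC⟩ := CuspFormClass.exists_bound (k := 12) (Γ := 𝒮ℒ) CuspForm.discriminant
  refine ⟨C ^ 2, sq_nonneg _, fun y hy => ?_⟩
  set c : ℕ → ℂ := fun n => cf n * ((Real.exp (-(2 * Real.pi * n * y)) : ℝ) : ℂ) with hc
  have hval : ∀ x : ℝ, HasSum (fun n : ℕ => c n * Pool.Agent.W165.RS.ee n x)
      (CuspForm.discriminant (ofComplex (x + Complex.I * y))) := by
    intro x
    have him : 0 < ((x : ℂ) + Complex.I * y).im := by simpa using hy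
    have h := Pool.Agent.W97.TW.hasSum_f Pool.Agent.W97.TW.deltaForm him
    refine HasSum.congr_fun h fun n => ?_
    change cf n * _ * _ = cf n * _
    unfold Pool.Agent.W165.RS.ee
    rw [mul_assoc, Complex.ofReal_exp, ← Complex.exp_add]
    congr 2
    push_cast
    linear_combination (-(2 * Real.pi * n * y) : ℂ) * Complex.I_sq
  have hcs : Summable (fun n => ‖c n‖) := by
    have := (hval 0).summable.norm
    refine this.congr fun n => ?_
    rw [norm_mul, Pool.Agent.W165.RS.norm_ee, mul_one]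
  have hP := Pool.Agent.W165.RS.parseval hcs
  have hn : ∀ n, ‖c n‖ ^ 2 = ‖cf n‖ ^ 2 * Real.exp (-(4 * Real.pi * n * y)) := by
    intro n
    rw [hc]
    simp only [norm_mul, Complex.norm_real, Real.norm_eq_abs, Real.abs_exp]
    rw [mul_pow, ← Real.exp_nat_mul]
    congr 2
    push_cast
    ring
  simp only [hn] at hP
  refine ⟨hP.summable, ?_⟩
  rw [hP.tsum_eq]
  have hb : ∀ x : ℝ, ‖∑' n : ℕ, c n * Pool.Agent.W165.RS.ee n x‖ ^ 2 ≤ C ^ 2 * (y ^ 12)⁻¹ := by
    intro x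
    rw [(hval x).tsum_eq]
    have h1 := hC (ofComplex (x + Complex.I * y))
    have him : 0 < ((x : ℂ) + Complex.I * y).im := by simpa using hy
    have h2 : (ofComplex ((x : ℂ) + Complex.I * y)).im = y := by
      rw [ofComplex_apply_of_im_pos him]
      change ((x : ℂ) + Complex.I * y).im = y
      simp
    have h3 : y ^ (((12 : ℤ) : ℝ) / 2) = y ^ 6 := by
      rw [show ((12 : ℤ) : ℝ) / 2 = ((6 : ℕ) : ℝ) by norm_num, Real.rpow_natCast]
    rw [h2, h3] at h1
    have h4 : ‖CuspForm.discriminant (ofComplex ((x : ℂ) + Complex.I * y))‖ ^ 2 ≤ (C / y ^ 6) ^ 2 :=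
      pow_le_pow_left₀ (norm_nonneg _) h1 2
    refine h4.trans (le_of_eq ?_)
    rw [div_pow, ← pow_mul]
    rfl
  have h5 := intervalIntegral.norm_integral_le_of_norm_le_const (a := 0) (b := 1)
    (C := C ^ 2 * (y ^ 12)⁻¹)
    (f := fun x : ℝ => ‖∑' n : ℕ, c n * Pool.Agent.W165.RS.ee n x‖ ^ 2) (fun x _ => by
      rw [Real.norm_eq_abs, abs_of_nonneg (by positivity)]
      exact hb x)
  rw [sub_zero, abs_one, mul_one] at h5
  exact (le_abs_self _).trans h5

lemma cf_sq_summable {β : ℝ} (hβ : 12 < β) :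
    Summable (fun n : ℕ => ‖cf n‖ ^ 2 * (n : ℝ) ^ (-β)) := by
  obtain ⟨C, hC0, hC⟩ := cf_sq_sum
  set F : ℕ × ℕ → ℝ := fun q => ((2 : ℝ) ^ q.1) ^ (-β) *
    (‖cf q.2‖ ^ 2 * Real.exp (-(4 * Real.pi * q.2 * ((2 : ℝ) ^ q.1)⁻¹))) with hF
  have hF0 : 0 ≤ F := fun q => by
    simp only [hF, Pi.zero_apply]
    positivity
  have hs : Summable F := by
    rw [summable_prod_of_nonneg hF0]
    refine ⟨fun k => ((hC ((2 : ℝ) ^ k)⁻¹ (by positivity)).1).mul_left (((2 : ℝ) ^ k) ^ (-β)), ?_⟩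
    refine Summable.of_nonneg_of_le (fun k => tsum_nonneg fun n => hF0 _) (fun k => ?_)
      (f := fun k : ℕ => C * ((2 : ℝ) ^ (12 - β)) ^ k)
      ((summable_geometric_of_lt_one (by positivity) ?_).mul_left C)
    · simp only [hF]
      rw [tsum_mul_left]
      have h1 := (hC ((2 : ℝ) ^ k)⁻¹ (by positivity)).2
      calc ((2 : ℝ) ^ k) ^ (-β) *
            ∑' n : ℕ, ‖cf n‖ ^ 2 * Real.exp (-(4 * Real.pi * n * ((2 : ℝ) ^ k)⁻¹))
          ≤ ((2 : ℝ) ^ k) ^ (-β) * (C * ((((2 : ℝ) ^ k)⁻¹) ^ 12)⁻¹) := by gcongr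
        _ = C * (((2 : ℝ) ^ k) ^ (12 : ℝ) * ((2 : ℝ) ^ k) ^ (-β)) := by
            rw [inv_pow, inv_inv, show (12 : ℝ) = ((12 : ℕ) : ℝ) by norm_num,
              Real.rpow_natCast]
            ring
        _ = C * ((2 : ℝ) ^ (12 - β)) ^ k := by
            rw [← Real.rpow_add (by positivity), ← Real.rpow_natCast, ← Real.rpow_natCast,
              ← Real.rpow_mul (by norm_num), ← Real.rpow_mul (by norm_num)]
            congr 2
            ring
    · exact Real.rpow_lt_one_of_one_lt_of_neg (by norm_num) (by linarith)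
  have hinj : Function.Injective (fun n : ℕ => (Nat.log 2 n, n)) :=
    fun a b h => (Prod.ext_iff.1 h).2
  have h1 := (hs.comp_injective hinj).mul_left (Real.exp (8 * Real.pi))
  refine Summable.of_nonneg_of_le (fun n => by positivity) (fun n => ?_) h1
  rcases Nat.eq_zero_or_pos n with rfl | hn
  · rw [cf_zero]
    simp only [norm_zero, Function.comp_apply]
    have := hF0 (Nat.log 2 0, 0)
    simp only [Pi.zero_apply] at this
    simp only [ne_eq, OfNat.ofNat_ne_zero, not_false_eq_true, zero_pow, zero_mul]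
    positivity
  · simp only [Function.comp_apply, hF]
    have hn' : (0 : ℝ) < n := by exact_mod_cast hn
    have e1 : (2 : ℝ) ^ Nat.log 2 n ≤ n := by exact_mod_cast Nat.pow_log_le_self 2 hn.ne'
    have e2 : (n : ℝ) < 2 ^ (Nat.log 2 n + 1) := by
      exact_mod_cast Nat.lt_pow_succ_log_self one_lt_two n
    have e3 : (n : ℝ) ^ (-β) ≤ ((2 : ℝ) ^ Nat.log 2 n) ^ (-β) :=
      Real.rpow_le_rpow_of_nonpos (by positivity) e1 (by linarith)
    have e4 : 1 ≤ Real.exp (8 * Real.pi) *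
        Real.exp (-(4 * Real.pi * n * ((2 : ℝ) ^ Nat.log 2 n)⁻¹)) := by
      rw [← Real.exp_add]
      apply Real.one_le_exp
      have h2 : (n : ℝ) * ((2 : ℝ) ^ Nat.log 2 n)⁻¹ ≤ 2 := by
        rw [← div_eq_mul_inv, div_le_iff₀ (by positivity)]
        rw [pow_succ] at e2
        linarith
      have := Real.pi_pos
      nlinarith
    calc ‖cf n‖ ^ 2 * (n : ℝ) ^ (-β) ≤ ‖cf n‖ ^ 2 * ((2 : ℝ) ^ Nat.log 2 n) ^ (-β) := by gcongr
      _ = (((2 : ℝ) ^ Nat.log 2 n) ^ (-β) * ‖cf n‖ ^ 2) * 1 := by ring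
      _ ≤ (((2 : ℝ) ^ Nat.log 2 n) ^ (-β) * ‖cf n‖ ^ 2) * (Real.exp (8 * Real.pi) *
          Real.exp (-(4 * Real.pi * n * ((2 : ℝ) ^ Nat.log 2 n)⁻¹))) := by gcongr
      _ = _ := by ring

lemma cf_summable {σ : ℝ} (hσ : 13 / 2 < σ) : Summable (fun n : ℕ => ‖cf n‖ * (n : ℝ) ^ (-σ)) := by
  set β : ℝ := (12 + (2 * σ - 1)) / 2 with hβ
  have h1 := cf_sq_summable (β := β) (by linarith)
  have h2 : Summable (fun n : ℕ => (n : ℝ) ^ (-(2 * σ - β))) :=
    Real.summable_nat_rpow.2 (by linarith)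
  refine Summable.of_nonneg_of_le (fun n => by positivity) (fun n => ?_) (h1.add h2)
  rcases Nat.eq_zero_or_pos n with rfl | hn
  · rw [cf_zero, norm_zero, zero_mul]
    positivity
  · have hn' : (0 : ℝ) < n := by exact_mod_cast hn
    have e : (n : ℝ) ^ (-σ) = (n : ℝ) ^ (-β / 2) * (n : ℝ) ^ (-(2 * σ - β) / 2) := by
      rw [← Real.rpow_add hn']
      congr 1
      ring
    have e1 : (n : ℝ) ^ (-β) = ((n : ℝ) ^ (-β / 2)) ^ 2 := by
      rw [← Real.rpow_natCast, ← Real.rpow_mul hn'.le]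
      congr 1
      push_cast
      ring
    have e2 : (n : ℝ) ^ (-(2 * σ - β)) = ((n : ℝ) ^ (-(2 * σ - β) / 2)) ^ 2 := by
      rw [← Real.rpow_natCast, ← Real.rpow_mul hn'.le]
      congr 1
      push_cast
      ring
    rw [e, e1, e2]
    have h3 : 0 < (n : ℝ) ^ (-β / 2) := by positivity
    have h4 : 0 < (n : ℝ) ^ (-(2 * σ - β) / 2) := by positivity
    have h5 := norm_nonneg (cf n)
    nlinarith [sq_nonneg (‖cf n‖ * (n : ℝ) ^ (-β / 2) - (n : ℝ) ^ (-(2 * σ - β) / 2)),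
      mul_pos h3 h4, sq_nonneg (‖cf n‖ * (n : ℝ) ^ (-β / 2)),
      sq_nonneg ((n : ℝ) ^ (-(2 * σ - β) / 2))]

/-- the terms of the Dirichlet series -/
noncomputable def ft (s : ℂ) (n : ℕ) : ℂ := cf n * (n : ℂ) ^ (-s)

lemma ft_norm_summable {s : ℂ} (hs : 13 / 2 < s.re) : Summable (fun n => ‖ft s n‖) := by
  refine (cf_summable hs).congr fun n => ?_
  unfold ft
  rcases Nat.eq_zero_or_pos n with rfl | hn
  · rw [cf_zero]; simp
  · have hn' : (0 : ℝ) < n := by exact_mod_cast hn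
    rw [norm_mul, ← Complex.ofReal_natCast, Complex.norm_cpow_eq_rpow_re_of_pos hn']
    simp

lemma ft_sum_ne {s : ℂ} (hs : 13 / 2 < s.re) : ∑' n : ℕ, ft s n ≠ 0 := by
  choose a hrec using cf_rec
  have hsum := ft_norm_summable hs
  have hf1 : ft s 1 = 1 := by
    unfold ft
    rw [Pool.Agent.Helper36.XD.cf_one]
    simp
  have hf0 : ft s 0 = 0 := by
    unfold ft
    rw [cf_zero, zero_mul]
  have hmul : ∀ {m n : ℕ}, Nat.Coprime m n → ft s (m * n) = ft s m * ft s n := by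
    intro m n hmn
    unfold ft
    rw [Pool.Agent.W97.TW.l_mul_coprime a (fun p => ((p : ℕ) : ℂ) ^ 11) cf cf_zero
      Pool.Agent.Helper36.XD.cf_one hrec m n hmn]
    rw [Nat.cast_mul, Complex.natCast_mul_natCast_cpow]
    ring
  have hprod := EulerProduct.eulerProduct_hasProd hf1 hmul hsum hf0
  -- local factors
  have hloc : ∀ p : Nat.Primes, ∑' e : ℕ, ft s ((p : ℕ) ^ e) ≠ 0 := by
    intro p
    have hp1 : 1 < (p : ℕ) := p.2.one_lt
    have hsp : Summable (fun e : ℕ => ft s ((p : ℕ) ^ e)) :=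
      (Summable.of_norm hsum).comp_injective (Nat.pow_right_injective hp1)
    set X : ℂ := ((p : ℕ) : ℂ) ^ (-s) with hX
    have hpow : ∀ e : ℕ, ft s ((p : ℕ) ^ e) = cf ((p : ℕ) ^ e) * X ^ e := by
      intro e
      unfold ft
      rw [Nat.cast_pow, Pool.Agent.W97.TW.natCast_pow_cpow]
    have hr : ∀ e : ℕ, ft s ((p : ℕ) ^ (e + 2)) =
        a p * X * ft s ((p : ℕ) ^ (e + 1)) -
          ((p : ℕ) : ℂ) ^ 11 * X ^ 2 * ft s ((p : ℕ) ^ e) := by
      intro e
      have h' := Pool.Agent.W97.TW.rec_two a (fun p => ((p : ℕ) : ℂ) ^ 11) cf hrec p e 1 one_pos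
      simp only [mul_one] at h'
      rw [hpow, hpow, hpow, h']
      ring
    set S : ℂ := ∑' e : ℕ, ft s ((p : ℕ) ^ e) with hS
    have hs1 : S = 1 + ∑' e : ℕ, ft s ((p : ℕ) ^ (e + 1)) := by
      rw [hS, hsp.tsum_eq_zero_add]
      simp [hf1]
    have hsp1 : Summable (fun e : ℕ => ft s ((p : ℕ) ^ (e + 1))) :=
      (summable_nat_add_iff 1).mpr hsp
    have hs2 : S = 1 + a p * X + ∑' e : ℕ, ft s ((p : ℕ) ^ (e + 2)) := by
      rw [hs1, hsp1.tsum_eq_zero_add]
      have : ft s ((p : ℕ) ^ (0 + 1)) = a p * X := by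
        rw [hpow]
        simp [Pool.Agent.W97.TW.l_prime a (fun p => ((p : ℕ) : ℂ) ^ 11) cf
          Pool.Agent.Helper36.XD.cf_one hrec p]
      rw [this]
      ring_nf
    have hs3 : ∑' e : ℕ, ft s ((p : ℕ) ^ (e + 2)) =
        a p * X * ∑' e : ℕ, ft s ((p : ℕ) ^ (e + 1)) - ((p : ℕ) : ℂ) ^ 11 * X ^ 2 * S := by
      rw [hS, ← tsum_mul_left, ← tsum_mul_left, ← (hsp1.mul_left _).tsum_sub (hsp.mul_left _)]
      exact tsum_congr hr
    have hs4 : ∑' e : ℕ, ft s ((p : ℕ) ^ (e + 1)) = S - 1 := by rw [hs1]; ring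
    have hfin : S * (1 - a p * X + ((p : ℕ) : ℂ) ^ 11 * X ^ 2) = 1 := by
      rw [hs3, hs4] at hs2
      linear_combination hs2
    exact left_ne_zero_of_mul_eq_one hfin
  -- the product
  have hinj : Function.Injective (fun q : Nat.Primes × ℕ => ((q.1 : ℕ)) ^ (q.2 + 1)) := by
    rintro ⟨p, i⟩ ⟨r, j⟩ h
    refine Nat.Primes.prodNatEquiv.injective (Subtype.ext ?_)
    rw [Nat.Primes.prodNatEquiv_apply, Nat.Primes.prodNatEquiv_apply]
    exact h
  have hsum2 : Summable (fun q : Nat.Primes × ℕ => ‖ft s ((q.1 : ℕ) ^ (q.2 + 1))‖) :=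
    hsum.comp_injective hinj
  have hg : Summable (fun p : Nat.Primes => ‖∑' e : ℕ, ft s ((p : ℕ) ^ (e + 1))‖) := by
    refine Summable.of_nonneg_of_le (fun p => norm_nonneg _) (fun p => ?_) hsum2.prod
    exact norm_tsum_le_tsum_norm (hsum2.prod_factor p)
  have hone : ∀ p : Nat.Primes, ∑' e : ℕ, ft s ((p : ℕ) ^ e) =
      1 + ∑' e : ℕ, ft s ((p : ℕ) ^ (e + 1)) := by
    intro p
    have hp1 : 1 < (p : ℕ) := p.2.one_lt
    have hsp : Summable (fun e : ℕ => ft s ((p : ℕ) ^ e)) :=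
      (Summable.of_norm hsum).comp_injective (Nat.pow_right_injective hp1)
    rw [hsp.tsum_eq_zero_add]
    simp [hf1]
  have hne := tprod_one_add_ne_zero_of_summable
    (f := fun p : Nat.Primes => ∑' e : ℕ, ft s ((p : ℕ) ^ (e + 1)))
    (fun p => by rw [← hone p]; exact hloc p) hg
  rw [← hprod.tprod_eq]
  simp only [hone]
  exact hne

/-- the entire function `Ld` is the sum of the Dirichlet series for `Re s > 13/2` -/
lemma Ld_eq {s : ℂ} (hs : 13 / 2 < s.re) : Ld s = ∑' n : ℕ, ft s n := by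
  have hterm : ∀ (w : ℂ) (n : ℕ), LSeries.term cf w n = ft w n := by
    intro w n
    unfold ft
    rw [LSeries.term_def]
    split_ifs with h
    · rw [h, cf_zero, zero_mul]
    · rw [Complex.cpow_neg, div_eq_mul_inv]
  have hsumm : ∀ w : ℂ, 13 / 2 < w.re → LSeriesSummable cf w := by
    intro w hw
    have := (ft_norm_summable hw).of_norm
    refine this.congr fun n => ?_
    exact (hterm w n).symm
  have habs : LSeries.abscissaOfAbsConv cf ≤ ((13 / 2 : ℝ) : EReal) :=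
    LSeries.abscissaOfAbsConv_le_of_forall_lt_LSeriesSummable fun y hy =>
      hsumm y (by simpa using hy)
  have hU : IsPreconnected {w : ℂ | 13 / 2 < w.re} :=
    (convex_halfSpace_re_gt (13 / 2)).isPreconnected
  have han : AnalyticOnNhd ℂ (LSeries cf) {w : ℂ | 13 / 2 < w.re} :=
    (LSeries_analyticOnNhd cf).mono fun w hw => by
      have h1 : (((13 / 2 : ℝ)) : EReal) < ((w.re : ℝ) : EReal) := by exact_mod_cast hw
      exact lt_of_le_of_lt habs h1
  have han2 : AnalyticOnNhd ℂ Ld {w : ℂ | 13 / 2 < w.re} :=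
    fun w _ => Pool.Agent.Helper36.XD.Ld_differentiable.analyticAt w
  have hLS : ∀ w : ℂ, LSeries cf w = ∑' n : ℕ, ft w n := fun w => tsum_congr (hterm w)
  have heq : Ld =ᶠ[𝓝 (8 : ℂ)] LSeries cf := by
    have hopen : IsOpen {w : ℂ | 7 < w.re} := isOpen_lt continuous_const Complex.continuous_re
    filter_upwards [hopen.mem_nhds (by norm_num : (8 : ℂ) ∈ {w : ℂ | 7 < w.re})] with w hw
    rw [hLS, ← (Pool.Agent.Helper36.XD.hasSum_Ld hw).tsum_eq]
    refine tsum_congr fun n => ?_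
    unfold ft
    rw [Complex.cpow_neg, div_eq_mul_inv]
  have h := han2.eqOn_of_preconnected_of_eventuallyEq han hU
    (by norm_num : (8 : ℂ) ∈ {w : ℂ | 13 / 2 < w.re}) heq
  rw [← hLS]
  exact h hs

lemma Lam_ne {s : ℂ} (hs : 13 / 2 < s.re) : Lam s ≠ 0 := by
  have hG : Gamma s ≠ 0 := Gamma_ne_zero_of_re_pos (by linarith)
  rw [Pool.Agent.Helper36.XD.Lam_eq hG, Ld_eq hs]
  refine mul_ne_zero (mul_ne_zero ?_ hG) (ft_sum_ne hs)
  exact (cpow_ne_zero_iff (y := -s)).mpr (Or.inl Pool.Agent.Helper36.XD.twopi_ne)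

end Pool.Agent.Helper27.DN
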