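import Pool.Agent.Helper27.DN.Tau
import Pool.Agent.Helper36.XD12

/-!
# The zeros of `Ξ_Δ` lie in the strip `|Im z| ≤ 1/2`
-/

set_option autoImplicit false

namespace Pool.Agent.Helper27.DN

open Complex Pool.Agent.Helper36.XD

/-- the zeros of the Ramanujan xi function lie in the closed strip `|Im z| ≤ 1/2` -/
theorem zeros_strip : ∀ z : ℂ, XiHeat 0 z = 0 → |z.im| ≤ 1 / 2 := by
  intro z hz
  rw [XiHeat_zero, mellin_eq_LT] at hz
  by_contra hne
  push Not at hne
  rcases lt_abs.1 hne with h | h
  · refine Lam_ne (s := 12 - (6 + I * z)) ?_ ?_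
    · simp
      linarith
    · rw [Lam_symm]
      exact hz
  · refine Lam_ne (s := 6 + I * z) ?_ hz
    simp
    linarith

end Pool.Agent.Helper27.DN
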